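import Pool.Agent.H86.CMLib.H667R3.C2

/-! Schneider–Lang argument over `ℚ(i)`: main theorem. -/

open Filter
open scoped Topology Nat

noncomputable section

namespace H667R3

/-- Data for the Schneider–Lang argument. -/
structure SLData where
  S : ℂ → ℂ
  A : ℂ → ℂ
  B : ℂ → ℂ
  hS : Differentiable ℂ S
  hA : Differentiable ℂ A
  hB : Differentiable ℂ B
  C : ℝ
  hC : 0 ≤ C
  gS : ∀ z, ‖S z‖ ≤ Real.exp (C * (1 + ‖z‖ ^ 3))
  gA : ∀ z, ‖A z‖ ≤ Real.exp (C * (1 + ‖z‖ ^ 3))
  gB : ∀ z, ‖B z‖ ≤ Real.exp (C * (1 + ‖z‖ ^ 3))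
  w : Fin 18 → ℂ
  hw : Function.Injective w
  hSw : ∀ l, S (w l) ≠ 0
  D : ℕ
  hD : 1 ≤ D
  hint : ∀ l i j k, ∃ g : GaussianInt, (D : ℂ) ^ (i + j + 3 * k) *
    iteratedDeriv k (fun z => (A z / S z ^ 2) ^ i * (B z / S z) ^ j) (w l) = g.toComplex

namespace SLData

variable (d : SLData)

/-- the monomials -/
def mono (i j : ℕ) (z : ℂ) : ℂ := (d.A z / d.S z ^ 2) ^ i * (d.B z / d.S z) ^ j

/-- the auxiliary function (meromorphic) -/
def Phi {r : ℕ} (a : Fin r × Fin r → ℤ) (z : ℂ) : ℂ :=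
  ∑ x : Fin r × Fin r, (a x : ℂ) * d.mono x.1 x.2 z

/-- the auxiliary function (entire) -/
def Theta {r : ℕ} (a : Fin r × Fin r → ℤ) (z : ℂ) : ℂ :=
  ∑ x : Fin r × Fin r, (a x : ℂ) * (d.A z ^ (x.1 : ℕ) * d.S z ^ (2 * (r - 1 - x.1)) *
    d.B z ^ (x.2 : ℕ) * d.S z ^ (r - 1 - x.2))

lemma differentiable_Theta {r : ℕ} (a : Fin r × Fin r → ℤ) : Differentiable ℂ (d.Theta a) := by
  have h1 := d.hS
  have h2 := d.hA
  have h3 := d.hB
  unfold Theta
  fun_prop

lemma analyticAt_mono (i j : ℕ) {z : ℂ} (hz : d.S z ≠ 0) : AnalyticAt ℂ (d.mono i j) z := by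
  have h1 := d.hS.analyticAt z
  have h2 := d.hA.analyticAt z
  have h3 := d.hB.analyticAt z
  unfold mono
  exact ((h2.fun_div (h1.fun_pow 2) (pow_ne_zero _ hz)).fun_pow i).fun_mul
    ((h3.fun_div h1 hz).fun_pow j)

lemma analyticAt_Phi {r : ℕ} (a : Fin r × Fin r → ℤ) {z : ℂ} (hz : d.S z ≠ 0) :
    AnalyticAt ℂ (d.Phi a) z := by
  unfold Phi
  refine Finset.analyticAt_fun_sum _ fun x _ => ?_
  exact analyticAt_const.fun_mul (d.analyticAt_mono _ _ hz)

lemma Theta_eq {r : ℕ} (a : Fin r × Fin r → ℤ) {z : ℂ} (hz : d.S z ≠ 0) :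
    d.Theta a z = d.S z ^ (3 * (r - 1)) * d.Phi a z := by
  unfold Theta Phi mono
  rw [Finset.mul_sum]
  refine Finset.sum_congr rfl fun x _ => ?_
  have h1 : (x.1 : ℕ) ≤ r - 1 := by have := x.1.2; omega
  have h2 : (x.2 : ℕ) ≤ r - 1 := by have := x.2.2; omega
  have e1 : 3 * (r - 1) = 2 * (r - 1 - x.1) + 2 * x.1 + (r - 1 - x.2) + x.2 := by omega
  rw [e1, pow_add, pow_add, pow_add, div_pow, div_pow, ← pow_mul]
  field_simp

lemma iteratedDeriv_Phi {r : ℕ} (a : Fin r × Fin r → ℤ) {z : ℂ} (hz : d.S z ≠ 0) (k : ℕ) :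
    iteratedDeriv k (d.Phi a) z = ∑ x : Fin r × Fin r, (a x : ℂ) * iteratedDeriv k (d.mono x.1 x.2) z := by
  unfold Phi
  rw [iteratedDeriv_fun_sum]
  · refine Finset.sum_congr rfl fun x _ => ?_
    rw [iteratedDeriv_const_mul_field]
  · intro x _
    exact (analyticAt_const.fun_mul (d.analyticAt_mono _ _ hz)).contDiffAt

/-- Cauchy estimates -/
lemma cauchy_bound : ∃ M : ℝ, 1 ≤ M ∧ ∀ l i j k,
    ‖iteratedDeriv k (d.mono i j) (d.w l)‖ ≤ (k ! : ℝ) * M ^ (i + j + k) := by
  have h1 : ∀ l, ∃ M : ℝ, 1 ≤ M ∧ ∀ i j k,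
      ‖iteratedDeriv k (d.mono i j) (d.w l)‖ ≤ (k ! : ℝ) * M ^ (i + j + k) := by
    intro l
    have hopen : IsOpen {z | d.S z ≠ 0} := isOpen_ne_fun d.hS.continuous continuous_const
    obtain ⟨ρ, hρ, hball⟩ := Metric.isOpen_iff.mp hopen (d.w l) (d.hSw l)
    set ρ' := min (ρ / 2) 1 with hρ'
    have hρ'0 : 0 < ρ' := by positivity
    have hρ'1 : ρ' ≤ 1 := min_le_right _ _
    have hsub : Metric.closedBall (d.w l) ρ' ⊆ {z | d.S z ≠ 0} := by
      intro z hz
      apply hball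
      rw [Metric.mem_closedBall] at hz
      rw [Metric.mem_ball]
      calc dist z (d.w l) ≤ ρ' := hz
        _ ≤ ρ / 2 := min_le_left _ _
        _ < ρ := by linarith
    have c1 : ContinuousOn (fun z => d.A z / d.S z ^ 2) (Metric.closedBall (d.w l) ρ') :=
      d.hA.continuous.continuousOn.div (d.hS.continuous.pow 2).continuousOn
        (fun z hz => pow_ne_zero _ (hsub hz))
    have c2 : ContinuousOn (fun z => d.B z / d.S z) (Metric.closedBall (d.w l) ρ') :=
      d.hB.continuous.continuousOn.div d.hS.continuous.continuousOn (fun z hz => hsub hz)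
    obtain ⟨M1, hM1⟩ := (isCompact_closedBall (d.w l) ρ').exists_bound_of_continuousOn c1
    obtain ⟨M2, hM2⟩ := (isCompact_closedBall (d.w l) ρ').exists_bound_of_continuousOn c2
    refine ⟨max (max M1 M2) (1 / ρ'), ?_, fun i j k => ?_⟩
    · exact le_max_of_le_right (by rw [le_div_iff₀ hρ'0]; linarith)
    · set M := max (max M1 M2) (1 / ρ') with hM
      have hM1' : M1 ≤ M := (le_max_left _ _).trans (le_max_left _ _)
      have hM2' : M2 ≤ M := (le_max_right _ _).trans (le_max_left _ _)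
      have hM3 : 1 / ρ' ≤ M := le_max_right _ _
      have hM0 : 0 ≤ M := le_trans (by positivity) hM3
      have hdiff : DifferentiableOn ℂ (d.mono i j) (Metric.closedBall (d.w l) ρ') := fun z hz =>
        (d.analyticAt_mono i j (hsub hz)).differentiableAt.differentiableWithinAt
      have hcl : DiffContOnCl ℂ (d.mono i j) (Metric.ball (d.w l) ρ') :=
        hdiff.diffContOnCl_ball subset_rfl
      have := Complex.norm_iteratedDeriv_le_of_forall_mem_sphere_norm_le (C := M ^ (i + j)) k hρ'0 hcl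
        (fun z hz => ?_)
      · refine this.trans ?_
        rw [mul_div_assoc]
        gcongr
        rw [pow_add M (i + j) k, div_eq_mul_inv]
        gcongr
        rw [← inv_pow]
        gcongr
        rw [← one_div]; exact hM3
      · have hz' : z ∈ Metric.closedBall (d.w l) ρ' := Metric.sphere_subset_closedBall hz
        unfold mono
        rw [norm_mul, norm_pow, norm_pow, pow_add]
        gcongr
        · exact (hM1 z hz').trans hM1'
        · exact (hM2 z hz').trans hM2'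
  choose M hM1 hM2 using h1
  refine ⟨∑ l, M l, ?_, fun l i j k => ?_⟩
  · have : M 0 ≤ ∑ l, M l := Finset.single_le_sum (f := M) (fun l _ => by linarith [hM1 l])
      (Finset.mem_univ 0)
    linarith [hM1 0]
  · refine (hM2 l i j k).trans ?_
    have : M l ≤ ∑ l, M l := Finset.single_le_sum (f := M) (fun l _ => by linarith [hM1 l])
      (Finset.mem_univ l)
    have h0 : 0 ≤ M l := by linarith [hM1 l]
    gcongr

/-- integrality with uniform denominators -/
lemma hint' (r : ℕ) (l : Fin 18) (i j : ℕ) (hij : i + j ≤ 2 * r) (k : ℕ) :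
    ∃ g : GaussianInt, (d.D : ℂ) ^ (2 * r + 3 * k) * iteratedDeriv k (d.mono i j) (d.w l)
      = g.toComplex := by
  obtain ⟨g, hg⟩ := d.hint l i j k
  refine ⟨(d.D : GaussianInt) ^ (2 * r - (i + j)) * g, ?_⟩
  rw [map_mul, map_pow, map_natCast, ← hg]
  have : 2 * r + 3 * k = (2 * r - (i + j)) + (i + j + 3 * k) := by omega
  rw [this, pow_add, mul_assoc]
  rfl

lemma one_le_norm_gaussian {g : GaussianInt} (hg : g ≠ 0) : 1 ≤ ‖g.toComplex‖ := by
  have h1 : (1 : ℝ) ≤ Complex.normSq g.toComplex := by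
    rw [GaussianInt.toComplex_def₂, Complex.normSq_mk]
    have h2 : g.re ≠ 0 ∨ g.im ≠ 0 := by
      by_contra h
      push Not at h
      exact hg (Zsqrtd.ext h.1 h.2)
    have h3 : 1 ≤ g.re * g.re + g.im * g.im := by
      rcases h2 with h | h
      · have := mul_self_pos.mpr h
        nlinarith [mul_self_nonneg g.im]
      · have := mul_self_pos.mpr h
        nlinarith [mul_self_nonneg g.re]
    exact_mod_cast h3
  rw [Complex.normSq_eq_norm_sq] at h1
  by_contra h
  push Not at h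
  have : ‖g.toComplex‖ ^ 2 < 1 := by
    have := norm_nonneg g.toComplex
    nlinarith
  linarith

end SLData

end H667R3
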