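import Pool.Agent.H86.CMLib.H667R3.C3

/-! Schneider–Lang argument over `ℚ(i)`: construction of the auxiliary function. -/

open Filter
open scoped Topology Nat

noncomputable section

namespace H667R3

namespace SLData

variable (d : SLData)

attribute [local instance] Matrix.seminormedAddCommGroup

open Matrix in
lemma siegel (M : ℝ) (hM : 1 ≤ M) (hMb : ∀ l i j k,
    ‖iteratedDeriv k (d.mono i j) (d.w l)‖ ≤ (k ! : ℝ) * M ^ (i + j + k)) (t : ℕ) (ht : 1 ≤ t) :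
    ∃ a : Fin (9 * t) × Fin (9 * t) → ℤ, a ≠ 0 ∧
      (∀ l, ∀ k < t ^ 2, iteratedDeriv k (d.Phi a) (d.w l) = 0) ∧
      ∀ x, ‖(a x : ℂ)‖ ≤ 81 * (t : ℝ) ^ 2 * ((d.D : ℝ) ^ (2 * (9 * t) + 3 * t ^ 2) *
        ((t : ℝ) ^ 2) ^ (t ^ 2) * M ^ (2 * (9 * t) + t ^ 2)) := by
  set r := 9 * t with hr
  have hij : ∀ x : Fin r × Fin r, (x.1 : ℕ) + (x.2 : ℕ) ≤ 2 * r := fun x => by
    have := x.1.2; have := x.2.2; omega
  choose g hg using fun (l : Fin 18) (x : Fin r × Fin r) (k : ℕ) => d.hint' r l x.1 x.2 (hij x) k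
  set Mat : Matrix (Fin 18 × Fin (t ^ 2) × Bool) (Fin r × Fin r) ℤ :=
    fun y x => if y.2.2 then (g y.1 x y.2.1).re else (g y.1 x y.2.1).im with hMat
  set E : ℝ := (d.D : ℝ) ^ (2 * r + 3 * t ^ 2) * ((t : ℝ) ^ 2) ^ (t ^ 2) * M ^ (2 * r + t ^ 2) with hE
  have hDr : (1 : ℝ) ≤ d.D := by exact_mod_cast d.hD
  have htr : (1 : ℝ) ≤ t := by exact_mod_cast ht
  have htr2 : (1 : ℝ) ≤ (t : ℝ) ^ 2 := one_le_pow₀ htr
  have hE1 : 1 ≤ E := by
    rw [hE]
    have h1 : (1 : ℝ) ≤ (d.D : ℝ) ^ (2 * r + 3 * t ^ 2) := one_le_pow₀ hDr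
    have h2 : (1 : ℝ) ≤ ((t : ℝ) ^ 2) ^ (t ^ 2) := one_le_pow₀ htr2
    have h3 : (1 : ℝ) ≤ M ^ (2 * r + t ^ 2) := one_le_pow₀ hM
    exact one_le_mul_of_one_le_of_one_le (one_le_mul_of_one_le_of_one_le h1 h2) h3
  have hMatE : ‖Mat‖ ≤ E := by
    rw [Matrix.norm_le_iff (by linarith)]
    rintro ⟨l, k, b⟩ x
    have hk : (k : ℕ) < t ^ 2 := k.2
    have h1 : ‖(g l x k).toComplex‖ ≤ E := by
      rw [← hg l x k, norm_mul, norm_pow, Complex.norm_natCast]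
      have h2 := hMb l x.1 x.2 k
      have h3 : ((k : ℕ) ! : ℝ) ≤ ((t : ℝ) ^ 2) ^ (t ^ 2) := by
        have h4 : ((k : ℕ) ! : ℝ) ≤ (((k : ℕ) : ℝ)) ^ (k : ℕ) := by
          exact_mod_cast Nat.factorial_le_pow k
        have h5 : (((k : ℕ) : ℝ)) ≤ (t : ℝ) ^ 2 := by exact_mod_cast hk.le
        calc ((k : ℕ) ! : ℝ) ≤ (((k : ℕ) : ℝ)) ^ (k : ℕ) := h4
          _ ≤ ((t : ℝ) ^ 2) ^ (k : ℕ) := by gcongr
          _ ≤ ((t : ℝ) ^ 2) ^ (t ^ 2) := pow_le_pow_right₀ htr2 hk.le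
      have h6 : (d.D : ℝ) ^ (2 * r + 3 * (k : ℕ)) ≤ (d.D : ℝ) ^ (2 * r + 3 * t ^ 2) :=
        pow_le_pow_right₀ hDr (by omega)
      have h7 : M ^ ((x.1 : ℕ) + (x.2 : ℕ) + (k : ℕ)) ≤ M ^ (2 * r + t ^ 2) :=
        pow_le_pow_right₀ hM (by have := hij x; omega)
      calc (d.D : ℝ) ^ (2 * r + 3 * (k : ℕ)) * ‖iteratedDeriv k (d.mono x.1 x.2) (d.w l)‖
          ≤ (d.D : ℝ) ^ (2 * r + 3 * t ^ 2) * (((t : ℝ) ^ 2) ^ (t ^ 2) * M ^ (2 * r + t ^ 2)) := by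
            refine mul_le_mul h6 (h2.trans ?_) (norm_nonneg _) (by positivity)
            gcongr
        _ = E := by rw [hE]; ring
    simp only [hMat]
    split_ifs
    · rw [Int.norm_eq_abs, GaussianInt.intCast_re]
      exact (Complex.abs_re_le_norm _).trans h1
    · rw [Int.norm_eq_abs, GaussianInt.intCast_im]
      exact (Complex.abs_im_le_norm _).trans h1
  have hcα : Fintype.card (Fin 18 × Fin (t ^ 2) × Bool) = 36 * t ^ 2 := by
    simp; ring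
  have hcβ : Fintype.card (Fin r × Fin r) = 81 * t ^ 2 := by
    simp [hr]; ring
  have ht2 : 0 < t ^ 2 := by positivity
  obtain ⟨a, ha0, ha1, ha2⟩ := Int.Matrix.exists_ne_zero_int_vec_norm_le Mat
    (by rw [hcα, hcβ]; omega) (by rw [hcα]; omega)
  refine ⟨a, ha0, ?_, ?_⟩
  · intro l k hk
    rw [d.iteratedDeriv_Phi a (d.hSw l)]
    have h1 : (d.D : ℂ) ^ (2 * r + 3 * k) *
        ∑ x : Fin r × Fin r, (a x : ℂ) * iteratedDeriv k (d.mono x.1 x.2) (d.w l) = 0 := by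
      rw [Finset.mul_sum]
      have h2 : ∀ x : Fin r × Fin r, (d.D : ℂ) ^ (2 * r + 3 * k) *
          ((a x : ℂ) * iteratedDeriv k (d.mono x.1 x.2) (d.w l)) = (a x : ℂ) * (g l x k).toComplex := by
        intro x
        rw [← hg l x k]; ring
      rw [Finset.sum_congr rfl fun x _ => h2 x]
      have hre := congrFun ha1 (l, ⟨k, hk⟩, true)
      have him := congrFun ha1 (l, ⟨k, hk⟩, false)
      simp only [Matrix.mulVec, dotProduct, hMat, if_true, Pi.zero_apply] at hre him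
      simp only [Bool.false_eq_true, if_false] at him
      apply Complex.ext
      · rw [Complex.re_sum, Complex.zero_re]
        have h3 : ((∑ x : Fin r × Fin r, (g l x k).re * a x : ℤ) : ℝ) = 0 := by
          rw [hre]; simp
        rw [← h3]
        push_cast
        refine Finset.sum_congr rfl fun x _ => ?_
        rw [Complex.mul_re, Complex.intCast_re, Complex.intCast_im, GaussianInt.intCast_re]
        ring
      · rw [Complex.im_sum, Complex.zero_im]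
        have h3 : ((∑ x : Fin r × Fin r, (g l x k).im * a x : ℤ) : ℝ) = 0 := by
          rw [him]; simp
        rw [← h3]
        push_cast
        refine Finset.sum_congr rfl fun x _ => ?_
        rw [Complex.mul_im, Complex.intCast_re, Complex.intCast_im, GaussianInt.intCast_im]
        ring
    have hD0 : (d.D : ℂ) ≠ 0 := by
      have := d.hD
      exact_mod_cast (by omega : d.D ≠ 0)
    rcases mul_eq_zero.mp h1 with h | h
    · exact absurd h (pow_ne_zero _ hD0)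
    · exact h
  · intro x
    have h1 : ‖(a x : ℂ)‖ ≤ ‖a‖ := by
      rw [Complex.norm_intCast]
      have := norm_le_pi_norm a x
      rwa [Int.norm_eq_abs] at this
    refine h1.trans (ha2.trans ?_)
    rw [hcα, hcβ]
    have hbase : (1 : ℝ) ≤ ((81 * t ^ 2 : ℕ) : ℝ) * max 1 ‖Mat‖ := by
      have h2 : (1 : ℝ) ≤ ((81 * t ^ 2 : ℕ) : ℝ) := by push_cast; nlinarith
      exact one_le_mul_of_one_le_of_one_le h2 (le_max_left _ _)
    have hexp : ((36 * t ^ 2 : ℕ) : ℝ) / (((81 * t ^ 2 : ℕ) : ℝ) - ((36 * t ^ 2 : ℕ) : ℝ)) ≤ 1 := by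
      push_cast
      rw [div_le_one (by nlinarith)]
      nlinarith
    calc (((81 * t ^ 2 : ℕ) : ℝ) * max 1 ‖Mat‖) ^
          (((36 * t ^ 2 : ℕ) : ℝ) / (((81 * t ^ 2 : ℕ) : ℝ) - ((36 * t ^ 2 : ℕ) : ℝ)))
        ≤ (((81 * t ^ 2 : ℕ) : ℝ) * max 1 ‖Mat‖) ^ (1 : ℝ) :=
          Real.rpow_le_rpow_of_exponent_le hbase hexp
      _ = ((81 * t ^ 2 : ℕ) : ℝ) * max 1 ‖Mat‖ := Real.rpow_one _
      _ ≤ 81 * (t : ℝ) ^ 2 * E := by
        push_cast
        gcongr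
        exact max_le hE1 hMatE

lemma analyticOrderAt_Theta_eq {r : ℕ} (a : Fin r × Fin r → ℤ) {z : ℂ} (hz : d.S z ≠ 0) :
    analyticOrderAt (d.Theta a) z = analyticOrderAt (d.Phi a) z := by
  have h1 : d.Theta a =ᶠ[𝓝 z] (fun z => d.S z ^ (3 * (r - 1))) * d.Phi a := by
    have hopen : IsOpen {z | d.S z ≠ 0} := isOpen_ne_fun d.hS.continuous continuous_const
    filter_upwards [hopen.mem_nhds hz] with x hx
    exact d.Theta_eq a hx
  have h2 : AnalyticAt ℂ (fun z => d.S z ^ (3 * (r - 1))) z := (d.hS.analyticAt z).fun_pow _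
  rw [analyticOrderAt_congr h1, analyticOrderAt_mul h2 (d.analyticAt_Phi a hz)]
  have h3 : analyticOrderAt (fun z => d.S z ^ (3 * (r - 1))) z = 0 := by
    rw [analyticOrderAt_eq_zero]
    right
    exact pow_ne_zero _ hz
  rw [h3, zero_add]

lemma analyticOrderAt_Theta_ne_top {r : ℕ} (a : Fin r × Fin r → ℤ) {z₀ : ℂ}
    (hz₀ : d.Theta a z₀ ≠ 0) (z : ℂ) : analyticOrderAt (d.Theta a) z ≠ ⊤ := by
  intro h
  rw [analyticOrderAt_eq_top] at h
  have hA : AnalyticOnNhd ℂ (d.Theta a) Set.univ := fun x _ =>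
    (d.differentiable_Theta a).analyticAt x
  have := hA.eqOn_zero_of_preconnected_of_eventuallyEq_zero isPreconnected_univ (Set.mem_univ z) h
  exact hz₀ (this (Set.mem_univ z₀))

lemma norm_Theta_le {r : ℕ} (a : Fin r × Fin r → ℤ) (N : ℝ) (hN : ∀ x, ‖(a x : ℂ)‖ ≤ N) (z : ℂ) :
    ‖d.Theta a z‖ ≤ (r : ℝ) ^ 2 * N * Real.exp (d.C * (1 + ‖z‖ ^ 3)) ^ (3 * r) := by
  unfold Theta
  set Q := Real.exp (d.C * (1 + ‖z‖ ^ 3)) with hQ
  have hQ1 : 1 ≤ Q := by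
    rw [hQ]; apply Real.one_le_exp; have := d.hC; positivity
  have h1 : ∀ x ∈ (Finset.univ : Finset (Fin r × Fin r)), ‖(a x : ℂ) * (d.A z ^ (x.1 : ℕ) *
      d.S z ^ (2 * (r - 1 - x.1)) * d.B z ^ (x.2 : ℕ) * d.S z ^ (r - 1 - x.2))‖ ≤ N * Q ^ (3 * r) := by
    intro x _
    rw [norm_mul, norm_mul, norm_mul, norm_mul, norm_pow, norm_pow, norm_pow, norm_pow]
    have h2 : ‖d.A z‖ ^ (x.1 : ℕ) * ‖d.S z‖ ^ (2 * (r - 1 - x.1)) * ‖d.B z‖ ^ (x.2 : ℕ)
        * ‖d.S z‖ ^ (r - 1 - x.2) ≤ Q ^ (x.1 : ℕ) * Q ^ (2 * (r - 1 - x.1)) * Q ^ (x.2 : ℕ)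
        * Q ^ (r - 1 - x.2) := by
      have hA := d.gA z
      have hB := d.gB z
      have hS := d.gS z
      gcongr
    have h3 : Q ^ (x.1 : ℕ) * Q ^ (2 * (r - 1 - x.1)) * Q ^ (x.2 : ℕ)
        * Q ^ (r - 1 - x.2) ≤ Q ^ (3 * r) := by
      rw [← pow_add, ← pow_add, ← pow_add]
      apply pow_le_pow_right₀ hQ1
      have := x.1.2
      have := x.2.2
      omega
    have hN0 : 0 ≤ N := (norm_nonneg _).trans (hN x)
    exact mul_le_mul (hN x) (h2.trans h3) (by positivity) hN0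
  refine (norm_sum_le_of_le _ h1).trans ?_
  rw [Finset.sum_const, Finset.card_univ, Fintype.card_prod, Fintype.card_fin, nsmul_eq_mul]
  push_cast
  apply le_of_eq
  ring

end SLData

end H667R3
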