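import Pool.Agent.H86.CMLib.H667R3.W7

open Module Filter
open scoped Topology Nat PeriodPair

noncomputable section

namespace H667R3

open Complex (I)

variable (L : PeriodPair)

/-- Serre's function `f_q(z) = σ(z+q)/(σ(z)σ(q)) exp(-ζ(q) z)`. -/
def serreF (q z : ℂ) : ℂ :=
  sigma L (z + q) / (sigma L z * sigma L q) * Complex.exp (-(zeta L q * z))

lemma serreF_add_coe {l : ℂ} (hl : l ∈ L.lattice) (q z : ℂ) :
    serreF L q (z + l) = Complex.exp (eta L l * q - zeta L q * l) * serreF L q z := by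
  obtain ⟨C, hC, hCs⟩ := sigma_add_coe L hl
  rw [serreF, serreF, show z + l + q = (z + q) + l by ring, hCs, hCs]
  have e1 : Complex.exp (eta L l * (z + q)) = Complex.exp (eta L l * z) * Complex.exp (eta L l * q) := by
    rw [← Complex.exp_add]; congr 1; ring
  have e2 : Complex.exp (-(zeta L q * (z + l)))
      = Complex.exp (-(zeta L q * z)) * Complex.exp (- (zeta L q * l)) := by
    rw [← Complex.exp_add]; congr 1; ring
  have e3 : Complex.exp (eta L l * q - zeta L q * l)
      = Complex.exp (eta L l * q) * Complex.exp (- (zeta L q * l)) := by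
    rw [← Complex.exp_add]; congr 1
  rw [e1, e2, e3]
  have he := Complex.exp_ne_zero (eta L l * z)
  by_cases hz : sigma L z * sigma L q = 0
  · rcases mul_eq_zero.mp hz with h | h
    · simp [h]
    · simp [h]
  · have h1 : sigma L z ≠ 0 := left_ne_zero_of_mul hz
    have h2 : sigma L q ≠ 0 := right_ne_zero_of_mul hz
    field_simp

lemma serreF_ne_zero {q z : ℂ} (hz : z ∉ L.lattice) (hq : q ∉ L.lattice)
    (hzq : z + q ∉ L.lattice) : serreF L q z ≠ 0 := by
  rw [serreF]
  exact mul_ne_zero (div_ne_zero (sigma_ne_zero L hzq)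
    (mul_ne_zero (sigma_ne_zero L hz) (sigma_ne_zero L hq))) (Complex.exp_ne_zero _)

lemma sigma_mul_sigma {a b : ℂ} (ha : a ∉ L.lattice) (hb : b ∉ L.lattice) :
    sigma L (a + b) * sigma L (a - b) = - (℘[L] a - ℘[L] b) * (sigma L a ^ 2 * sigma L b ^ 2) := by
  have h1 := sigma_ne_zero L ha
  have h2 := sigma_ne_zero L hb
  rw [wp_sub_wp L ha hb, neg_div, neg_neg, div_mul_cancel₀]
  positivity

lemma serreF_two {q z : ℂ} (hz : 2 * z ∉ L.lattice) (hq : q ∉ L.lattice)
    (hzq : z + q ∉ L.lattice) :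
    serreF L q (2 * z) = serreF L q z ^ 2 * ((℘[L] (z + q) - ℘[L] z) / ℘'[L] z) := by
  have hz' := two_mul_notMem_of L hz
  have s1 := sigma_ne_zero L hz'
  have s2 := sigma_ne_zero L hz
  have s3 := sigma_ne_zero L hq
  have s4 := sigma_ne_zero L hzq
  have e1 := sigma_mul_sigma L hzq hz'
  rw [show z + q + z = 2 * z + q by ring, show z + q - z = q by ring] at e1
  have e2 : sigma L (2 * z) = - (℘'[L] z * sigma L z ^ 4) := by
    rw [wp'_eq L hz', div_mul_cancel₀ _ (by positivity)]; ring
  have h5 := wp'_ne_zero L hz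
  have e3 : Complex.exp (-(zeta L q * (2 * z))) = Complex.exp (-(zeta L q * z)) ^ 2 := by
    rw [← Complex.exp_nat_mul]; congr 1; push_cast; ring
  rw [serreF, serreF, e3]
  have e4 : sigma L (2 * z + q) = - (℘[L] (z + q) - ℘[L] z) * (sigma L (z + q) ^ 2 * sigma L z ^ 2)
      / sigma L q := by
    rw [← e1]; field_simp
  rw [e4, e2]
  field_simp

lemma serreF_add_sub {q a b : ℂ} (ha : a ∉ L.lattice) (hb : b ∉ L.lattice) (hq : q ∉ L.lattice)
    (haq : a + q ∉ L.lattice) (h1 : a + b ∉ L.lattice) (h2 : a - b ∉ L.lattice) :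
    serreF L q (a + b) * serreF L q (a - b)
      = serreF L q a ^ 2 * ((℘[L] (a + q) - ℘[L] b) / (℘[L] a - ℘[L] b)) := by
  have s1 := sigma_ne_zero L ha
  have s2 := sigma_ne_zero L hb
  have s3 := sigma_ne_zero L hq
  have s4 := sigma_ne_zero L haq
  have s5 := sigma_ne_zero L h1
  have s6 := sigma_ne_zero L h2
  have e1 := sigma_mul_sigma L haq hb
  have e2 := sigma_mul_sigma L ha hb
  have h3 : ℘[L] a - ℘[L] b ≠ 0 := by
    rw [sub_ne_zero, Ne, wp_eq_iff L ha hb]
    tauto
  have e3 : Complex.exp (-(zeta L q * (a + b))) * Complex.exp (-(zeta L q * (a - b)))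
      = Complex.exp (-(zeta L q * a)) ^ 2 := by
    rw [← Complex.exp_add, ← Complex.exp_nat_mul]; congr 1; push_cast; ring
  have e4 : serreF L q (a + b) * serreF L q (a - b) =
      (sigma L (a + q + b) * sigma L (a + q - b))
        / ((sigma L (a + b) * sigma L (a - b)) * sigma L q ^ 2)
        * (Complex.exp (-(zeta L q * (a + b))) * Complex.exp (-(zeta L q * (a - b)))) := by
    rw [serreF, serreF, show a + b + q = a + q + b by ring, show a - b + q = a + q - b by ring]
    field_simp
  rw [e4, e3, e1, e2, serreF]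
  field_simp

/-- The Ribet point has an algebraic coordinate. -/
lemma ribet {L : PeriodPair} (hL : CM L) {p : ℂ} (hp : p ∉ L.lattice) :
    (Complex.exp (-(I * p * zeta L p)) * serreF L (I * p) p) ^ 2 = -(2 * I * ℘[L] p) := by
  have hIp : I * p ∉ L.lattice := fun h => hp ((I_mul_mem_iff hL).mp h)
  have s1 := sigma_ne_zero L hp
  have e1 := sigma_mul_sigma L hp hIp
  have e2 : p - I * p = -(I * (p + I * p)) := by
    linear_combination p * Complex.I_mul_I
  rw [e2, sigma_neg, sigma_I_mul hL, sigma_I_mul hL, wp_I_mul hL] at e1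
  have e3 : Complex.exp (-(I * p * zeta L p)) * Complex.exp (-(zeta L (I * p) * p)) = 1 := by
    rw [zeta_I_mul hL, ← Complex.exp_add]
    rw [show -(I * p * zeta L p) + -(-I * zeta L p * p) = 0 by ring, Complex.exp_zero]
  have e4 : Complex.exp (-(I * p * zeta L p)) * serreF L (I * p) p
      = sigma L (p + I * p) / (sigma L p * (I * sigma L p)) := by
    rw [serreF, sigma_I_mul hL]
    linear_combination (sigma L (p + I * p) / (sigma L p * (I * sigma L p))) * e3
  rw [e4]
  have hI : (I : ℂ) ≠ 0 := Complex.I_ne_zero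
  have hI2 : (I : ℂ) ^ 2 = -1 := Complex.I_sq
  rw [div_pow, div_eq_iff (by positivity)]
  have e5 : sigma L (p + I * p) ^ 2 = 2 * I * ℘[L] p * sigma L p ^ 4 := by
    have : (-I) * (sigma L (p + I * p) ^ 2 - 2 * I * ℘[L] p * sigma L p ^ 4) = 0 := by
      linear_combination e1
    rcases mul_eq_zero.mp this with h | h
    · simp at h
    · exact sub_eq_zero.mp h
  rw [e5]
  linear_combination (2 * I * ℘[L] p * sigma L p ^ 4) * hI2

end H667R3
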