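import Pool.Agent.H86.CMLib.H667R3.C6
import Pool.Agent.H86.CMLib.H667R3.W8

/-! The field `ℚ(i)`, growth, and algebraic independence. -/

open Module Filter
open scoped Topology Nat PeriodPair

noncomputable section

namespace H667R3

open Complex (I)

lemma conj_mem_Zi {x : ℂ} (hx : x ∈ Zi) : (starRingEnd ℂ) x ∈ Zi := by
  rw [mem_Zi] at hx ⊢
  obtain ⟨g, rfl⟩ := hx
  exact ⟨star g, GaussianInt.toComplex_star g⟩

/-- `ℚ(i)` as a subfield of `ℂ`. -/
def Ki : Subfield ℂ where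
  carrier := {z | ∃ D : ℕ, 0 < D ∧ (D : ℂ) * z ∈ Zi}
  mul_mem' := by
    rintro x y ⟨D, hD, h⟩ ⟨E, hE, h'⟩
    refine ⟨D * E, Nat.mul_pos hD hE, ?_⟩
    have := mul_mem h h'
    push_cast
    convert this using 1; ring
  one_mem' := ⟨1, one_pos, by simp⟩
  add_mem' := by
    rintro x y ⟨D, hD, h⟩ ⟨E, hE, h'⟩
    refine ⟨D * E, Nat.mul_pos hD hE, ?_⟩
    have := add_mem (mul_mem (natCast_mem_Zi E) h) (mul_mem (natCast_mem_Zi D) h')
    push_cast
    convert this using 1; ring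
  zero_mem' := ⟨1, one_pos, by simp⟩
  neg_mem' := by
    rintro x ⟨D, hD, h⟩
    refine ⟨D, hD, ?_⟩
    have := neg_mem h
    convert this using 1; ring
  inv_mem' := by
    rintro x ⟨D, hD, h⟩
    by_cases hx : x = 0
    · exact ⟨1, one_pos, by simp [hx]⟩
    have hD0 : (D : ℂ) ≠ 0 := by exact_mod_cast hD.ne'
    obtain ⟨g, hg⟩ := mem_Zi.mp h
    have hg0 : g ≠ 0 := by
      rintro rfl
      rw [map_zero] at hg
      exact mul_ne_zero hD0 hx hg.symm
    refine ⟨g.norm.natAbs, ?_, ?_⟩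
    · have := GaussianInt.norm_pos.mpr hg0
      omega
    · have h1 : ((g.norm.natAbs : ℕ) : ℂ) = g.toComplex * (starRingEnd ℂ) g.toComplex := by
        rw [Complex.mul_conj]
        have := GaussianInt.natAbs_norm_eq g
        have h2 := GaussianInt.intCast_real_norm g
        rw [← h2]
        have h3 : ((g.norm.natAbs : ℕ) : ℤ) = g.norm :=
          Int.natAbs_of_nonneg (GaussianInt.norm_nonneg g)
        have h4 : ((g.norm.natAbs : ℕ) : ℂ) = ((g.norm : ℤ) : ℂ) := by
          rw [← Int.cast_natCast, h3]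
        rw [h4]; push_cast; rfl
      rw [h1, hg]
      have h5 : (D : ℂ) * x * (starRingEnd ℂ) (D * x) * x⁻¹ = D * (starRingEnd ℂ) (D * x) := by
        field_simp
      rw [h5]
      exact mul_mem (natCast_mem_Zi D) (conj_mem_Zi h)

lemma mem_Ki {z : ℂ} : z ∈ Ki ↔ ∃ D : ℕ, 0 < D ∧ (D : ℂ) * z ∈ Zi := Iff.rfl

lemma Zi_le_Ki {z : ℂ} (hz : z ∈ Zi) : z ∈ Ki := ⟨1, one_pos, by simpa using hz⟩

lemma I_mem_Ki : I ∈ Ki := Zi_le_Ki I_mem_Zi

lemma exists_common_denominator (T : Finset ℂ) (hT : ∀ x ∈ T, x ∈ Ki) :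
    ∃ D : ℕ, 1 ≤ D ∧ ∀ x ∈ T, (D : ℂ) * x ∈ Zi := by
  classical
  induction T using Finset.induction_on with
  | empty => exact ⟨1, le_rfl, by simp⟩
  | insert x T hx ih =>
    obtain ⟨D, hD, hDT⟩ := ih (fun y hy => hT y (Finset.mem_insert_of_mem hy))
    obtain ⟨E, hE, hEx⟩ := mem_Ki.mp (hT x (Finset.mem_insert_self x T))
    refine ⟨D * E, Nat.mul_pos hD hE, fun y hy => ?_⟩
    rcases Finset.mem_insert.mp hy with rfl | hy
    · have := mul_mem (natCast_mem_Zi D) hEx
      push_cast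
      convert this using 1; ring
    · have := mul_mem (natCast_mem_Zi E) (hDT y hy)
      push_cast
      convert this using 1; ring

/-- growth of order at most three -/
def Gr (f : ℂ → ℂ) : Prop := ∃ C : ℝ, 0 ≤ C ∧ ∀ z, ‖f z‖ ≤ Real.exp (C * (1 + ‖z‖ ^ 3))

lemma le_one_add_cube {x : ℝ} (hx : 0 ≤ x) : x ≤ 1 + x ^ 3 := by
  rcases le_total x 1 with h | h
  · have : 0 ≤ x ^ 3 := by positivity
    linarith
  · nlinarith [mul_nonneg hx (sub_nonneg.mpr h), mul_nonneg (mul_nonneg hx hx) (sub_nonneg.mpr h)]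

lemma Gr.const (c : ℂ) : Gr (fun _ => c) := by
  refine ⟨‖c‖, norm_nonneg _, fun z => ?_⟩
  have h1 := Real.add_one_le_exp (‖c‖ * (1 + ‖z‖ ^ 3))
  have h2 : 0 ≤ ‖c‖ * ‖z‖ ^ 3 := by positivity
  linarith

lemma Gr.mul {f g : ℂ → ℂ} (hf : Gr f) (hg : Gr g) : Gr (fun z => f z * g z) := by
  obtain ⟨C, hC, h⟩ := hf
  obtain ⟨E, hE, h'⟩ := hg
  refine ⟨C + E, by positivity, fun z => ?_⟩
  rw [norm_mul, add_mul, Real.exp_add]
  exact mul_le_mul (h z) (h' z) (norm_nonneg _) (Real.exp_nonneg _)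

lemma Gr.sub {f g : ℂ → ℂ} (hf : Gr f) (hg : Gr g) : Gr (fun z => f z - g z) := by
  obtain ⟨C, hC, h⟩ := hf
  obtain ⟨E, hE, h'⟩ := hg
  refine ⟨1 + C + E, by positivity, fun z => ?_⟩
  have hu : 1 ≤ 1 + ‖z‖ ^ 3 := by have : 0 ≤ ‖z‖ ^ 3 := by positivity
                                  linarith
  set u := 1 + ‖z‖ ^ 3 with hudef
  have h1 : ‖f z‖ ≤ Real.exp ((C + E) * u) := (h z).trans (Real.exp_le_exp.mpr (by nlinarith))
  have h2 : ‖g z‖ ≤ Real.exp ((C + E) * u) := (h' z).trans (Real.exp_le_exp.mpr (by nlinarith))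
  have h3 : (2 : ℝ) ≤ Real.exp u := by
    have := Real.add_one_le_exp u
    linarith
  calc ‖f z - g z‖ ≤ ‖f z‖ + ‖g z‖ := norm_sub_le _ _
    _ ≤ 2 * Real.exp ((C + E) * u) := by linarith
    _ ≤ Real.exp u * Real.exp ((C + E) * u) := by gcongr
    _ = Real.exp ((1 + C + E) * u) := by rw [← Real.exp_add]; congr 1; ring

lemma Gr.shift {f : ℂ → ℂ} (hf : Gr f) (w : ℂ) : Gr (fun z => f (z + w)) := by
  obtain ⟨C, hC, h⟩ := hf
  refine ⟨C * (4 + 4 * ‖w‖ ^ 3), by positivity, fun z => ?_⟩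
  refine (h _).trans (Real.exp_le_exp.mpr ?_)
  rw [mul_assoc]
  gcongr
  have h1 : ‖z + w‖ ≤ ‖z‖ + ‖w‖ := norm_add_le _ _
  have h2 : ‖z + w‖ ^ 3 ≤ (‖z‖ + ‖w‖) ^ 3 := by gcongr
  have h3 : (‖z‖ + ‖w‖) ^ 3 ≤ 4 * (‖z‖ ^ 3 + ‖w‖ ^ 3) := by
    nlinarith [norm_nonneg z, norm_nonneg w, mul_nonneg (add_nonneg (norm_nonneg z) (norm_nonneg w))
      (sq_nonneg (‖z‖ - ‖w‖))]
  have h4 : 0 ≤ ‖w‖ ^ 3 * ‖z‖ ^ 3 := by positivity
  have h5 : 0 ≤ ‖z‖ ^ 3 := by positivity
  have h6 : 0 ≤ ‖w‖ ^ 3 := by positivity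
  nlinarith

lemma Gr.exp (a : ℂ) : Gr (fun z => Complex.exp (a * z)) := by
  refine ⟨‖a‖, norm_nonneg _, fun z => ?_⟩
  rw [Complex.norm_exp]
  apply Real.exp_le_exp.mpr
  calc (a * z).re ≤ ‖a * z‖ := Complex.re_le_norm _
    _ = ‖a‖ * ‖z‖ := norm_mul _ _
    _ ≤ ‖a‖ * (1 + ‖z‖ ^ 3) := by
      gcongr
      exact le_one_add_cube (norm_nonneg z)

lemma Gr.sigma (L : PeriodPair) : Gr (sigma L) := by
  obtain ⟨C, hC, h⟩ := norm_sigma_le L
  refine ⟨1 + C, by positivity, fun z => ?_⟩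
  refine (h z).trans ?_
  have h1 : ‖z‖ ≤ Real.exp ‖z‖ := by
    have := Real.add_one_le_exp ‖z‖; linarith
  calc ‖z‖ * Real.exp (C * ‖z‖ ^ 3) ≤ Real.exp ‖z‖ * Real.exp (C * ‖z‖ ^ 3) := by gcongr
    _ = Real.exp (‖z‖ + C * ‖z‖ ^ 3) := (Real.exp_add _ _).symm
    _ ≤ Real.exp ((1 + C) * (1 + ‖z‖ ^ 3)) := by
      apply Real.exp_le_exp.mpr
      have := le_one_add_cube (norm_nonneg z)
      nlinarith

/-- algebraic independence of `℘` and a multiplicatively quasi-periodic function -/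
lemma independence (L : PeriodPair) (F : ℂ → ℂ) (q χ l : ℂ) (hl : l ∈ L.lattice)
    (hχ : ∀ n : ℕ, 0 < n → χ ^ n ≠ 1) (hχ0 : χ ≠ 0) (hF : ∀ z, F (z + l) = χ * F z)
    (hFne : ∀ z, z ∉ L.lattice → z + q ∉ L.lattice → F z ≠ 0)
    {r : ℕ} (a : Fin r × Fin r → ℤ)
    (h : ∀ z, z ∉ L.lattice → ∑ x : Fin r × Fin r, (a x : ℂ) * (℘[L] z ^ (x.1 : ℕ) *
      F z ^ (x.2 : ℕ)) = 0) : a = 0 := by
  -- step 1 : separation of the powers of F
  have step1 : ∀ z, z ∉ L.lattice → z + q ∉ L.lattice → ∀ j : Fin r,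
      ∑ i : Fin r, (a (i, j) : ℂ) * ℘[L] z ^ (i : ℕ) = 0 := by
    intro z hz hzq
    set v : Fin r → ℂ := fun j => F z ^ (j : ℕ) * ∑ i : Fin r, (a (i, j) : ℂ) * ℘[L] z ^ (i : ℕ)
      with hv
    set p : Polynomial ℂ := ∑ j : Fin r, Polynomial.C (v j) * Polynomial.X ^ (j : ℕ) with hp
    have hFn : ∀ n : ℕ, F (z + n * l) = χ ^ n * F z := by
      intro n
      induction n with
      | zero => simp
      | succ n ih =>
        have : z + ((n + 1 : ℕ) : ℂ) * l = (z + n * l) + l := by push_cast; ring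
        rw [this, hF, ih]; ring
    have hroot : ∀ n : ℕ, p.eval (χ ^ n) = 0 := by
      intro n
      have hnl : (n : ℂ) * l ∈ L.lattice := by simpa using intCast_mul_mem L hl (n : ℤ)
      have h1 := h (z + n * l) (fun hh => hz ((add_mem_iff L hnl).mp hh))
      rw [L.weierstrassP_add_coe z ⟨n * l, hnl⟩, hFn, Fintype.sum_prod_type,
        Finset.sum_comm] at h1
      rw [hp, Polynomial.eval_finsetSum, ← h1]
      refine Finset.sum_congr rfl fun j _ => ?_
      simp only [Polynomial.eval_mul, Polynomial.eval_C, Polynomial.eval_pow, Polynomial.eval_X, hv]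
      rw [Finset.mul_sum, Finset.sum_mul]
      refine Finset.sum_congr rfl fun i _ => ?_
      rw [mul_pow]; ring
    have hp0 : p = 0 := by
      by_contra hne
      have hfin : Set.Finite {x | p.eval x = 0} := by
        have := p.rootSet_finite ℂ
        refine (p.roots.toFinset.finite_toSet).subset ?_
        intro x hx
        simp only [Finset.mem_coe, Multiset.mem_toFinset]
        rw [Polynomial.mem_roots hne]
        exact hx
      have hinj : Function.Injective (fun n : ℕ => χ ^ n) := by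
        intro m n hmn
        simp only at hmn
        by_contra hne'
        rcases lt_or_gt_of_ne hne' with hlt | hlt
        · apply hχ (n - m) (by omega)
          have : χ ^ n = χ ^ m * χ ^ (n - m) := by rw [← pow_add]; congr 1; omega
          rw [this] at hmn
          have h2 : χ ^ m * (χ ^ (n - m) - 1) = 0 := by linear_combination -hmn
          rcases mul_eq_zero.mp h2 with h3 | h3
          · exact absurd h3 (pow_ne_zero _ hχ0)
          · exact sub_eq_zero.mp h3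
        · apply hχ (m - n) (by omega)
          have : χ ^ m = χ ^ n * χ ^ (m - n) := by rw [← pow_add]; congr 1; omega
          rw [this] at hmn
          have h2 : χ ^ n * (χ ^ (m - n) - 1) = 0 := by linear_combination hmn
          rcases mul_eq_zero.mp h2 with h3 | h3
          · exact absurd h3 (pow_ne_zero _ hχ0)
          · exact sub_eq_zero.mp h3
      exact (Set.infinite_range_of_injective hinj) (hfin.subset (by
        rintro _ ⟨n, rfl⟩; exact hroot n))
    intro j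
    have h2 : v j = 0 := by
      have : p.coeff (j : ℕ) = v j := by
        rw [hp, Polynomial.finsetSum_coeff]
        simp only [Polynomial.coeff_C_mul, Polynomial.coeff_X_pow]
        rw [Finset.sum_eq_single j]
        · simp
        · intro b _ hb
          have : (j : ℕ) ≠ (b : ℕ) := fun h => hb (Fin.ext h.symm)
          simp [this]
        · simp
      rw [← this, hp0, Polynomial.coeff_zero]
    simp only [hv] at h2
    rcases mul_eq_zero.mp h2 with h3 | h3
    · exact absurd h3 (pow_ne_zero _ (hFne z hz hzq))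
    · exact h3
  -- step 2
  ext ⟨i₀, j⟩
  set p : Polynomial ℂ := ∑ i : Fin r, Polynomial.C (a (i, j) : ℂ) * Polynomial.X ^ (i : ℕ) with hp
  have hroot : ∀ v : ℂ, v ≠ ℘[L] q → p.eval v = 0 := by
    intro v hv
    obtain ⟨z, hz, hzv⟩ := exists_wp_eq L v
    have hzq : z + q ∉ L.lattice := by
      intro hh
      apply hv
      rw [← hzv]
      have : z = -q + (z + q) := by ring
      have h2 := L.weierstrassP_add_coe (-q) ⟨z + q, hh⟩
      simp only at h2
      rw [← this, L.weierstrassP_neg] at h2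
      exact h2
    have h1 := step1 z hz hzq j
    rw [hp, Polynomial.eval_finsetSum, ← h1, hzv]
    refine Finset.sum_congr rfl fun i _ => ?_
    simp
  have hp0 : p = 0 := by
    by_contra hne
    have hfin : Set.Finite {x | p.eval x = 0} := by
      refine (p.roots.toFinset.finite_toSet).subset ?_
      intro x hx
      simp only [Finset.mem_coe, Multiset.mem_toFinset]
      rw [Polynomial.mem_roots hne]
      exact hx
    have hinf : Set.Infinite {x : ℂ | x ≠ ℘[L] q} := by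
      have : {x : ℂ | x ≠ ℘[L] q} = {℘[L] q}ᶜ := by ext; simp
      rw [this]
      exact (Set.finite_singleton _).infinite_compl
    exact hinf (hfin.subset fun x hx => hroot x hx)
  have h2 : p.coeff (i₀ : ℕ) = (a (i₀, j) : ℂ) := by
    rw [hp, Polynomial.finsetSum_coeff]
    simp only [Polynomial.coeff_C_mul, Polynomial.coeff_X_pow]
    rw [Finset.sum_eq_single i₀]
    · simp
    · intro b _ hb
      have : (i₀ : ℕ) ≠ (b : ℕ) := fun h => hb (Fin.ext h.symm)
      simp [this]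
    · simp
  rw [hp0, Polynomial.coeff_zero] at h2
  have h3 : (a (i₀, j) : ℂ) = 0 := h2.symm
  exact_mod_cast h3

end H667R3
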