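import Pool.Agent.H86.CMLib.H667R3.W2

open Module Filter
open scoped Topology Nat PeriodPair

noncomputable section

namespace H667R3

variable (L : PeriodPair)

lemma isOpen_compl : IsOpen (L.lattice : Set ℂ)ᶜ := L.isClosed_lattice.isOpen_compl

lemma isPreconnected_compl : IsPreconnected (L.lattice : Set ℂ)ᶜ := by
  refine (Set.Countable.isConnected_compl_of_one_lt_rank (by simp) ?_).2
  exact countable_of_Lindelof_of_discrete (X := L.lattice)

lemma add_mem_iff {z l : ℂ} (hl : l ∈ L.lattice) : z + l ∈ L.lattice ↔ z ∈ L.lattice := by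
  constructor
  · intro h; simpa using sub_mem h hl
  · intro h; exact add_mem h hl

/-- quasi-period of `ζ` along the lattice vector `l`. -/
def eta (l : ℂ) : ℂ := zeta L (L.ω₁ / 2 + l) - zeta L (L.ω₁ / 2)

lemma zeta_add_coe {z l : ℂ} (hz : z ∉ L.lattice) (hl : l ∈ L.lattice) :
    zeta L (z + l) = zeta L z + eta L l := by
  have key : Set.EqOn (fun z => zeta L (z + l)) (fun z => zeta L z + eta L l)
      (L.lattice : Set ℂ)ᶜ := by
    apply IsOpen.eqOn_of_deriv_eq (𝕜 := ℂ) (isOpen_compl L) (isPreconnected_compl L)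
      (x := L.ω₁ / 2)
    · refine (differentiableOn_zeta L).comp (f := (· + l)) (by fun_prop) ?_
      intro x hx h
      exact hx ((add_mem_iff L hl).mp h)
    · exact (differentiableOn_zeta L).add_const _
    · intro x hx
      have h1 : x + l ∉ L.lattice := fun h => hx ((add_mem_iff L hl).mp h)
      have h2 : HasDerivAt (fun z => zeta L (z + l)) (- ℘[L] (x + l)) x := by
        simpa using (hasDerivAt_zeta L h1).comp_add_const x l
      have h3 : HasDerivAt (fun z => zeta L z + eta L l) (- ℘[L] x) x :=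
        (hasDerivAt_zeta L hx).add_const _
      rw [h2.deriv, h3.deriv]
      rw [L.weierstrassP_add_coe x ⟨l, hl⟩]
    · exact L.ω₁_div_two_notMem_lattice
    · simp [eta]
  exact key hz

lemma eta_add {l l' : ℂ} (hl : l ∈ L.lattice) (hl' : l' ∈ L.lattice) :
    eta L (l + l') = eta L l + eta L l' := by
  have h0 := L.ω₁_div_two_notMem_lattice
  have h1 : L.ω₁ / 2 + l ∉ L.lattice := fun h => h0 ((add_mem_iff L hl).mp h)
  have e1 := zeta_add_coe L h0 (add_mem hl hl')
  have e2 := zeta_add_coe L h1 hl'
  have e3 := zeta_add_coe L h0 hl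
  rw [← add_assoc] at e1
  linear_combination e2 + e3 - e1

lemma eta_zero : eta L 0 = 0 := by simp [eta]

lemma eta_neg {l : ℂ} (hl : l ∈ L.lattice) : eta L (-l) = - eta L l := by
  have := eta_add L hl (neg_mem hl)
  rw [add_neg_cancel, eta_zero] at this
  linear_combination -this

lemma eta_nsmul {l : ℂ} (hl : l ∈ L.lattice) (n : ℕ) : eta L (n * l) = n * eta L l := by
  induction n with
  | zero => simp [eta_zero]
  | succ n ih =>
    have h : (n : ℂ) * l ∈ L.lattice := by
      simpa using (L.lattice.smul_mem (n : ℤ) hl)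
    push_cast
    rw [add_mul, one_mul, eta_add L h hl, ih]
    ring

lemma intCast_mul_mem {l : ℂ} (hl : l ∈ L.lattice) (n : ℤ) : (n : ℂ) * l ∈ L.lattice := by
  simpa using (L.lattice.smul_mem (n : ℤ) hl)

lemma eta_zsmul {l : ℂ} (hl : l ∈ L.lattice) (n : ℤ) : eta L (n * l) = n * eta L l := by
  obtain ⟨m, rfl | rfl⟩ := n.eq_nat_or_neg
  · simpa using eta_nsmul L hl m
  · have h := eta_nsmul L hl m
    have h2 : (m : ℂ) * l ∈ L.lattice := by simpa using intCast_mul_mem L hl (m : ℤ)
    have h3 := eta_neg L h2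
    push_cast
    rw [neg_mul, h3, h]; ring

lemma sigma_add_coe {l : ℂ} (hl : l ∈ L.lattice) :
    ∃ C : ℂ, C ≠ 0 ∧ ∀ z, sigma L (z + l) = C * Complex.exp (eta L l * z) * sigma L z := by
  have hne : ∀ z, z ∉ L.lattice → z + l ∉ L.lattice := fun z hz h => hz ((add_mem_iff L hl).mp h)
  set g : ℂ → ℂ := fun z => sigma L (z + l) * Complex.exp (-(eta L l * z)) / sigma L z with hg
  have hder : ∀ z, z ∉ L.lattice → HasDerivAt g 0 z := by
    intro z hz
    have h1 : HasDerivAt (fun z => sigma L (z + l)) (zeta L (z + l) * sigma L (z + l)) z := by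
      simpa using (hasDerivAt_sigma L (hne z hz)).comp_add_const z l
    have h2 : HasDerivAt (fun z => Complex.exp (-(eta L l * z)))
        (Complex.exp (-(eta L l * z)) * (-(eta L l))) z := by
      have : HasDerivAt (fun z => -(eta L l * z)) (-(eta L l)) z := by
        simpa using ((hasDerivAt_id z).const_mul (eta L l)).fun_neg
      exact this.cexp
    have h3 := hasDerivAt_sigma L hz
    have h4 := (h1.mul h2).div h3 (sigma_ne_zero L hz)
    refine h4.congr_deriv ?_
    rw [zeta_add_coe L hz hl]
    have := sigma_ne_zero L hz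
    simp only [Pi.mul_apply]
    field_simp
    ring
  have hconst : ∀ z, z ∉ L.lattice → g z = g (L.ω₁ / 2) := by
    intro z hz
    exact (isOpen_compl L).is_const_of_deriv_eq_zero (isPreconnected_compl L)
      (fun x hx => (hder x hx).differentiableAt.differentiableWithinAt)
      (fun x hx => (hder x hx).deriv) hz L.ω₁_div_two_notMem_lattice
  refine ⟨g (L.ω₁ / 2), ?_, ?_⟩
  · rw [hg]
    have h0 := L.ω₁_div_two_notMem_lattice
    exact div_ne_zero (mul_ne_zero (sigma_ne_zero L (hne _ h0)) (Complex.exp_ne_zero _))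
      (sigma_ne_zero L h0)
  · intro z
    by_cases hz : z ∈ L.lattice
    · rw [sigma_coe_eq_zero L hz, sigma_coe_eq_zero L (add_mem hz hl), mul_zero]
    · rw [← hconst z hz, hg]
      have := sigma_ne_zero L hz
      have he : Complex.exp (eta L l * z) ≠ 0 := Complex.exp_ne_zero _
      simp only [Complex.exp_neg]
      field_simp

/-- Liouville theorem for elliptic functions with removable singularities. -/
lemma eq_of_periodic (g : ℂ → ℂ) (hd : ∀ z, z ∉ L.lattice → DifferentiableAt ℂ g z)
    (hper : ∀ z, z ∉ L.lattice → ∀ l ∈ L.lattice, g (z + l) = g z)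
    (G₀ : ℂ → ℂ) (hG : DifferentiableAt ℂ G₀ 0) (heq : ∀ᶠ z in 𝓝[≠] (0 : ℂ), g z = G₀ z) :
    ∀ z w, z ∉ L.lattice → w ∉ L.lattice → g z = g w := by
  classical
  set h : ℂ → ℂ := fun z => if z ∈ L.lattice then G₀ 0 else g z with hh
  have hper' : ∀ z, ∀ l ∈ L.lattice, h (z + l) = h z := by
    intro z l hl
    simp only [hh]
    by_cases hz : z ∈ L.lattice
    · rw [if_pos hz, if_pos (add_mem hz hl)]
    · rw [if_neg hz, if_neg (fun h => hz ((add_mem_iff L hl).mp h)), hper z hz l hl]
  have hnear : h =ᶠ[𝓝 0] G₀ := by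
    have h1 : ∀ᶠ z in 𝓝[≠] (0 : ℂ), z ∉ L.lattice := by
      filter_upwards [self_mem_nhdsWithin, mem_nhdsWithin_of_mem_nhds
        (L.compl_lattice_sdiff_singleton_mem_nhds 0)] with w hw hw'
      simp_all
    have h2 : ∀ᶠ z in 𝓝[≠] (0 : ℂ), h z = G₀ z := by
      filter_upwards [h1, heq] with z hz hz'
      simp only [hh, if_neg hz, hz']
    rw [eventually_nhdsWithin_iff] at h2
    filter_upwards [h2] with z hz
    by_cases hz0 : z = 0
    · subst hz0; simp [hh]
    · exact hz hz0
  have hd0 : DifferentiableAt ℂ h 0 := hG.congr_of_eventuallyEq hnear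
  have hdiff : Differentiable ℂ h := by
    intro z
    by_cases hz : z ∈ L.lattice
    · have : h = fun x => h (x - z) := by
        ext x
        have := hper' x (-z) (neg_mem hz)
        rw [← sub_eq_add_neg] at this
        exact this.symm
      rw [this]
      have h3 : DifferentiableAt ℂ h (z - z) := by rw [sub_self]; exact hd0
      exact h3.comp z (f := fun x => x - z) (by fun_prop)
    · refine (hd z hz).congr_of_eventuallyEq ?_
      filter_upwards [(isOpen_compl L).mem_nhds hz] with x hx
      have hx' : x ∉ L.lattice := hx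
      simp only [hh]
      rw [if_neg hx']
  intro z w hz hw
  have := hdiff.apply_eq_apply_of_bounded (IsZLattice.isCompact_range_of_periodic L.lattice _
    hdiff.continuous hper').isBounded z w
  simpa [hh, hz, hw] using this

end H667R3
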