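import Pool.Agent.H86.CMLib.H667R3.W4

open Module Filter
open scoped Topology Nat PeriodPair

noncomputable section

namespace H667R3

variable (L : PeriodPair)

lemma zeta_aux {z w : ℂ} (hz : z ∉ L.lattice) (hw : w ∉ L.lattice) (h1 : z + w ∉ L.lattice)
    (h2 : z - w ∉ L.lattice) :
    ℘'[L] z + 2 * zeta L z * (℘[L] z - ℘[L] w)
      = (zeta L (z + w) + zeta L (z - w)) * (℘[L] z - ℘[L] w) := by
  have hsz := sigma_ne_zero L hz
  have hsw := sigma_ne_zero L hw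
  have hs1 := sigma_ne_zero L h1
  have hs2 := sigma_ne_zero L h2
  have e : ∀ x, x ∉ L.lattice → (℘[L] x - ℘[L] w) * (sigma L x ^ 2 * sigma L w ^ 2)
      = - (sigma L (x + w) * sigma L (x - w)) := by
    intro x hx
    have hsx := sigma_ne_zero L hx
    rw [wp_sub_wp L hx hw, div_mul_cancel₀]
    positivity
  have d1 : HasDerivAt (fun x => (℘[L] x - ℘[L] w) * (sigma L x ^ 2 * sigma L w ^ 2))
      (℘'[L] z * (sigma L z ^ 2 * sigma L w ^ 2)
        + (℘[L] z - ℘[L] w) * (2 * sigma L z * (zeta L z * sigma L z) * sigma L w ^ 2)) z := by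
    have a := (hasDerivAt_weierstrassP L hz).sub_const (℘[L] w)
    have b := ((hasDerivAt_sigma L hz).fun_pow 2).mul_const (sigma L w ^ 2)
    refine (a.mul b).congr_deriv ?_
    simp
  have d2 : HasDerivAt (fun x => - (sigma L (x + w) * sigma L (x - w)))
      (-(zeta L (z + w) * sigma L (z + w) * sigma L (z - w)
        + sigma L (z + w) * (zeta L (z - w) * sigma L (z - w)))) z := by
    have a : HasDerivAt (fun x => sigma L (x + w)) (zeta L (z + w) * sigma L (z + w)) z :=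
      (hasDerivAt_sigma L h1).comp_add_const z w
    have b : HasDerivAt (fun x => sigma L (x - w)) (zeta L (z - w) * sigma L (z - w)) z :=
      (hasDerivAt_sigma L h2).comp_sub_const z w
    exact (a.mul b).fun_neg
  have h3 : (fun x => (℘[L] x - ℘[L] w) * (sigma L x ^ 2 * sigma L w ^ 2)) =ᶠ[𝓝 z]
      (fun x => - (sigma L (x + w) * sigma L (x - w))) := by
    filter_upwards [(isOpen_compl L).mem_nhds hz] with x hx
    exact e x hx
  have h4 := d1.unique (d2.congr_of_eventuallyEq h3)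
  have h5 := e z hz
  have h6 : sigma L z ^ 2 * sigma L w ^ 2 ≠ 0 := by positivity
  apply mul_right_cancel₀ h6
  linear_combination h4 - (zeta L (z + w) + zeta L (z - w)) * h5

/-- addition formula for `ζ` -/
lemma zeta_add {z w : ℂ} (hz : z ∉ L.lattice) (hw : w ∉ L.lattice) (h1 : z + w ∉ L.lattice)
    (h2 : z - w ∉ L.lattice) :
    zeta L (z + w) = zeta L z + zeta L w
      + (℘'[L] z - ℘'[L] w) / (2 * (℘[L] z - ℘[L] w)) := by
  have h3 : ℘[L] z - ℘[L] w ≠ 0 := by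
    rw [sub_ne_zero, Ne, wp_eq_iff L hz hw]
    tauto
  have e1 := zeta_aux L hz hw h1 h2
  have h4 : w - z ∉ L.lattice := fun h => h2 (by simpa using neg_mem h)
  have e2 := zeta_aux L hw hz (by rwa [add_comm]) h4
  have e3 : zeta L (w - z) = - zeta L (z - w) := by rw [← zeta_neg]; congr 1; ring
  rw [e3, add_comm w z] at e2
  field_simp
  linear_combination -e1 + e2

/-- `ζ(2z) = 2 ζ(z) + ℘''(z)/(2℘'(z))` -/
lemma zeta_two {z : ℂ} (hz : 2 * z ∉ L.lattice) :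
    zeta L (2 * z) = 2 * zeta L z + (6 * ℘[L] z ^ 2 - L.g₂ / 2) / (2 * ℘'[L] z) := by
  have hz' : z ∉ L.lattice := by
    intro h
    apply hz
    rw [two_mul]; exact add_mem h h
  have hsz := sigma_ne_zero L hz'
  have e : ∀ x, x ∉ L.lattice → ℘'[L] x * sigma L x ^ 4 = - sigma L (2 * x) := by
    intro x hx
    have hsx := sigma_ne_zero L hx
    rw [wp'_eq L hx, div_mul_cancel₀]
    positivity
  have d1 : HasDerivAt (fun x => ℘'[L] x * sigma L x ^ 4)
      ((6 * ℘[L] z ^ 2 - L.g₂ / 2) * sigma L z ^ 4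
        + ℘'[L] z * (4 * sigma L z ^ 3 * (zeta L z * sigma L z))) z := by
    have a := hasDerivAt_wp' L hz
    have b := ((hasDerivAt_sigma L hz').fun_pow 4)
    refine (a.mul b).congr_deriv ?_
    simp
  have d2 : HasDerivAt (fun x => - sigma L (2 * x)) (-(zeta L (2 * z) * sigma L (2 * z) * 2)) z := by
    have h0 : HasDerivAt (fun x : ℂ => 2 * x) 2 z := by
      simpa using (hasDerivAt_id z).const_mul 2
    exact ((hasDerivAt_sigma L hz).comp z h0).fun_neg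
  have h3 : (fun x => ℘'[L] x * sigma L x ^ 4) =ᶠ[𝓝 z] (fun x => - sigma L (2 * x)) := by
    filter_upwards [(isOpen_compl L).mem_nhds hz'] with x hx
    exact e x hx
  have h4 := d1.unique (d2.congr_of_eventuallyEq h3)
  have h5 := e z hz'
  have h6 := wp'_ne_zero L hz
  have h7 : sigma L z ^ 4 ≠ 0 := by positivity
  have h8 : (6 * ℘[L] z ^ 2 - L.g₂ / 2) + 4 * ℘'[L] z * zeta L z = 2 * zeta L (2 * z) * ℘'[L] z := by
    apply mul_right_cancel₀ h7
    linear_combination h4 - 2 * zeta L (2 * z) * h5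
  field_simp
  linear_combination -2 * h8

lemma two_mul_notMem_of {z : ℂ} (hz : 2 * z ∉ L.lattice) : z ∉ L.lattice := by
  intro h
  apply hz
  rw [two_mul]; exact add_mem h h

lemma isOpen_two : IsOpen {z : ℂ | 2 * z ∉ L.lattice} := by
  have : {z : ℂ | 2 * z ∉ L.lattice} = (fun z => 2 * z) ⁻¹' (L.lattice : Set ℂ)ᶜ := rfl
  rw [this]
  exact (isOpen_compl L).preimage (by fun_prop)

/-- addition formula for `℘` (in derivative form) -/
lemma wp_add {z w : ℂ} (hz : 2 * z ∉ L.lattice) (hw : w ∉ L.lattice) (h1 : z + w ∉ L.lattice)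
    (h2 : z - w ∉ L.lattice) :
    ℘[L] (z + w) = ℘[L] z - ((6 * ℘[L] z ^ 2 - L.g₂ / 2) * (℘[L] z - ℘[L] w)
      - (℘'[L] z - ℘'[L] w) * ℘'[L] z) / (2 * (℘[L] z - ℘[L] w) ^ 2) := by
  have hz' := two_mul_notMem_of L hz
  have h3 : ℘[L] z - ℘[L] w ≠ 0 := by
    rw [sub_ne_zero, Ne, wp_eq_iff L hz' hw]
    tauto
  have d1 : HasDerivAt (fun x => zeta L (x + w)) (-℘[L] (z + w)) z :=
    (hasDerivAt_zeta L h1).comp_add_const z w
  have d2 : HasDerivAt (fun x => zeta L x + zeta L w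
      + (℘'[L] x - ℘'[L] w) / (2 * (℘[L] x - ℘[L] w)))
      (-℘[L] z + ((6 * ℘[L] z ^ 2 - L.g₂ / 2) * (2 * (℘[L] z - ℘[L] w))
      - (℘'[L] z - ℘'[L] w) * (2 * ℘'[L] z)) / (2 * (℘[L] z - ℘[L] w)) ^ 2) z := by
    refine ((hasDerivAt_zeta L hz').add_const _).add ?_
    exact ((hasDerivAt_wp' L hz).sub_const _).div
      (((hasDerivAt_weierstrassP L hz').sub_const _).const_mul 2) (by simpa using h3)
  have h4 : (fun x => zeta L (x + w)) =ᶠ[𝓝 z] (fun x => zeta L x + zeta L w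
      + (℘'[L] x - ℘'[L] w) / (2 * (℘[L] x - ℘[L] w))) := by
    have o1 : ∀ᶠ x in 𝓝 z, x + w ∉ L.lattice := by
      have : IsOpen ((fun x => x + w) ⁻¹' (L.lattice : Set ℂ)ᶜ) :=
        (isOpen_compl L).preimage (by fun_prop)
      exact this.mem_nhds h1
    have o2 : ∀ᶠ x in 𝓝 z, x - w ∉ L.lattice := by
      have : IsOpen ((fun x => x - w) ⁻¹' (L.lattice : Set ℂ)ᶜ) :=
        (isOpen_compl L).preimage (by fun_prop)
      exact this.mem_nhds h2
    filter_upwards [(isOpen_compl L).mem_nhds hz', o1, o2] with x hx hx1 hx2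
    exact zeta_add L hx hw hx1 hx2
  have h5 := d1.unique (d2.congr_of_eventuallyEq h4)
  have h6 : ℘[L] (z + w) = ℘[L] z - ((6 * ℘[L] z ^ 2 - L.g₂ / 2) * (2 * (℘[L] z - ℘[L] w))
      - (℘'[L] z - ℘'[L] w) * (2 * ℘'[L] z)) / (2 * (℘[L] z - ℘[L] w)) ^ 2 := by
    linear_combination -h5
  rw [h6]
  field_simp

/-- addition formula for `℘'` (in derivative form) -/
lemma wp'_add {z w : ℂ} (hz : 2 * z ∉ L.lattice) (hw : w ∉ L.lattice) (h1 : z + w ∉ L.lattice)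
    (h2 : z - w ∉ L.lattice) :
    ℘'[L] (z + w) = ℘'[L] z -
      (((12 * ℘[L] z * ℘'[L] z) * (℘[L] z - ℘[L] w) + (6 * ℘[L] z ^ 2 - L.g₂ / 2) * ℘'[L] z
      - ((6 * ℘[L] z ^ 2 - L.g₂ / 2) * ℘'[L] z
          + (℘'[L] z - ℘'[L] w) * (6 * ℘[L] z ^ 2 - L.g₂ / 2))) * (2 * (℘[L] z - ℘[L] w) ^ 2)
      - ((6 * ℘[L] z ^ 2 - L.g₂ / 2) * (℘[L] z - ℘[L] w)
        - (℘'[L] z - ℘'[L] w) * ℘'[L] z) * (2 * (2 * (℘[L] z - ℘[L] w) * ℘'[L] z)))
      / (2 * (℘[L] z - ℘[L] w) ^ 2) ^ 2 := by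
  have hz' := two_mul_notMem_of L hz
  have h3 : ℘[L] z - ℘[L] w ≠ 0 := by
    rw [sub_ne_zero, Ne, wp_eq_iff L hz' hw]
    tauto
  have d1 : HasDerivAt (fun x => ℘[L] (x + w)) (℘'[L] (z + w)) z :=
    (hasDerivAt_weierstrassP L h1).comp_add_const z w
  have hp := hasDerivAt_weierstrassP L hz'
  have hp' := hasDerivAt_wp' L hz
  have hq : HasDerivAt (fun x => 6 * ℘[L] x ^ 2 - L.g₂ / 2) (12 * ℘[L] z * ℘'[L] z) z := by
    refine (((hp.fun_pow 2).const_mul 6).sub_const _).congr_deriv ?_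
    push_cast
    ring
  have hr : HasDerivAt (fun x => 2 * (℘[L] x - ℘[L] w) ^ 2)
      (2 * (2 * (℘[L] z - ℘[L] w) * ℘'[L] z)) z := by
    refine (((hp.sub_const (℘[L] w)).fun_pow 2).const_mul 2).congr_deriv ?_
    push_cast
    ring
  have d2 := hp.fun_sub (((hq.fun_mul (hp.sub_const (℘[L] w))).fun_sub
    ((hp'.sub_const (℘'[L] w)).fun_mul hp')).fun_div hr
      (by simpa using h3))
  have h4 : (fun x => ℘[L] (x + w)) =ᶠ[𝓝 z] (fun x => ℘[L] x - ((6 * ℘[L] x ^ 2 - L.g₂ / 2) * (℘[L] x - ℘[L] w)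
      - (℘'[L] x - ℘'[L] w) * ℘'[L] x) / (2 * (℘[L] x - ℘[L] w) ^ 2)) := by
    have o1 : ∀ᶠ x in 𝓝 z, x + w ∉ L.lattice := by
      have : IsOpen ((fun x => x + w) ⁻¹' (L.lattice : Set ℂ)ᶜ) :=
        (isOpen_compl L).preimage (by fun_prop)
      exact this.mem_nhds h1
    have o2 : ∀ᶠ x in 𝓝 z, x - w ∉ L.lattice := by
      have : IsOpen ((fun x => x - w) ⁻¹' (L.lattice : Set ℂ)ᶜ) :=
        (isOpen_compl L).preimage (by fun_prop)
      exact this.mem_nhds h2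
    filter_upwards [(isOpen_two L).mem_nhds hz, o1, o2] with x hx hx1 hx2
    exact wp_add L hx hw hx1 hx2
  exact d1.unique (d2.congr_of_eventuallyEq h4)

/-- duplication formula for `℘` -/
lemma wp_two {z : ℂ} (hz : 2 * z ∉ L.lattice) :
    ℘[L] (2 * z) = -2 * ℘[L] z + (6 * ℘[L] z ^ 2 - L.g₂ / 2) ^ 2 / (4 * ℘'[L] z ^ 2) := by
  have hz' := two_mul_notMem_of L hz
  have h3 := wp'_ne_zero L hz
  have h0 : HasDerivAt (fun x : ℂ => 2 * x) 2 z := by
    simpa using (hasDerivAt_id z).const_mul 2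
  have d1 : HasDerivAt (fun x => zeta L (2 * x)) (-℘[L] (2 * z) * 2) z :=
    (hasDerivAt_zeta L hz).comp z h0
  have hp := hasDerivAt_weierstrassP L hz'
  have hp' := hasDerivAt_wp' L hz
  have hq : HasDerivAt (fun x => 6 * ℘[L] x ^ 2 - L.g₂ / 2) (12 * ℘[L] z * ℘'[L] z) z := by
    refine (((hp.fun_pow 2).const_mul 6).sub_const _).congr_deriv ?_
    push_cast
    ring
  have d2 := ((hasDerivAt_zeta L hz').const_mul 2).fun_add (hq.fun_div (hp'.const_mul 2)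
    (by simpa using h3))
  have h4 : (fun x => zeta L (2 * x)) =ᶠ[𝓝 z] (fun x => 2 * zeta L x +
      (6 * ℘[L] x ^ 2 - L.g₂ / 2) / (2 * ℘'[L] x)) := by
    filter_upwards [(isOpen_two L).mem_nhds hz] with x hx
    exact zeta_two L hx
  have h5 := d1.unique (d2.congr_of_eventuallyEq h4)
  field_simp at h5 ⊢
  linear_combination (-1) * h5

/-- duplication formula for `℘'` (in derivative form) -/
lemma wp'_two {z : ℂ} (hz : 2 * z ∉ L.lattice) :
    ℘'[L] (2 * z) = (-2 * ℘'[L] z +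
      ((2 * (6 * ℘[L] z ^ 2 - L.g₂ / 2) * (12 * ℘[L] z * ℘'[L] z)) * (4 * ℘'[L] z ^ 2)
        - (6 * ℘[L] z ^ 2 - L.g₂ / 2) ^ 2 * (4 * (2 * ℘'[L] z * (6 * ℘[L] z ^ 2 - L.g₂ / 2))))
      / (4 * ℘'[L] z ^ 2) ^ 2) / 2 := by
  have hz' := two_mul_notMem_of L hz
  have h3 := wp'_ne_zero L hz
  have h0 : HasDerivAt (fun x : ℂ => 2 * x) 2 z := by
    simpa using (hasDerivAt_id z).const_mul 2
  have d1 : HasDerivAt (fun x => ℘[L] (2 * x)) (℘'[L] (2 * z) * 2) z :=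
    (hasDerivAt_weierstrassP L hz).comp z h0
  have hp := hasDerivAt_weierstrassP L hz'
  have hp' := hasDerivAt_wp' L hz
  have hq : HasDerivAt (fun x => (6 * ℘[L] x ^ 2 - L.g₂ / 2) ^ 2)
      (2 * (6 * ℘[L] z ^ 2 - L.g₂ / 2) * (12 * ℘[L] z * ℘'[L] z)) z := by
    refine ((((hp.fun_pow 2).const_mul 6).sub_const _).fun_pow 2).congr_deriv ?_
    push_cast
    ring
  have hr : HasDerivAt (fun x => 4 * ℘'[L] x ^ 2)
      (4 * (2 * ℘'[L] z * (6 * ℘[L] z ^ 2 - L.g₂ / 2))) z := by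
    refine ((hp'.fun_pow 2).const_mul 4).congr_deriv ?_
    push_cast
    ring
  have d2 := (hp.const_mul (-2)).fun_add (hq.fun_div hr (by simpa using h3))
  have h4 : (fun x => ℘[L] (2 * x)) =ᶠ[𝓝 z] (fun x => -2 * ℘[L] x +
      (6 * ℘[L] x ^ 2 - L.g₂ / 2) ^ 2 / (4 * ℘'[L] x ^ 2)) := by
    filter_upwards [(isOpen_two L).mem_nhds hz] with x hx
    exact wp_two L hx
  have h5 := d1.unique (d2.congr_of_eventuallyEq h4)
  rw [← h5]; ring

end H667R3
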