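import Pool.Agent.H86.CMLib.H667R3.W5

open Module Filter
open scoped Topology Nat PeriodPair

noncomputable section

namespace H667R3

open Complex (I)

/-- The square lattice pair `(c, i c)`. -/
def sq (c : ℂ) (hc : c ≠ 0) : PeriodPair where
  ω₁ := c
  ω₂ := I * c
  indep := by
    rw [LinearIndependent.pair_iff]
    intro s t h
    have h1 : ((s : ℂ) + t * I) * c = 0 := by
      simp only [Complex.real_smul] at h
      linear_combination h
    have h2 : (s : ℂ) + t * I = 0 := by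
      rcases mul_eq_zero.mp h1 with h | h
      · exact h
      · exact absurd h hc
    constructor
    · have := congrArg Complex.re h2; simpa using this
    · have := congrArg Complex.im h2; simpa using this

variable {c : ℂ} {hc : c ≠ 0}

@[simp] lemma sq_ω₁ : (sq c hc).ω₁ = c := rfl
@[simp] lemma sq_ω₂ : (sq c hc).ω₂ = I * c := rfl

lemma mem_sq {x : ℂ} : x ∈ (sq c hc).lattice ↔ ∃ m n : ℤ, (m + n * I) * c = x := by
  rw [PeriodPair.mem_lattice]
  simp only [sq_ω₁, sq_ω₂]
  constructor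
  · rintro ⟨m, n, h⟩; exact ⟨m, n, by rw [← h]; ring⟩
  · rintro ⟨m, n, h⟩; exact ⟨m, n, by rw [← h]; ring⟩

/-- stability under multiplication by `i` -/
def CM (L : PeriodPair) : Prop := ∀ l ∈ L.lattice, I * l ∈ L.lattice

lemma CM_sq : CM (sq c hc) := by
  intro l hl
  rw [mem_sq] at hl ⊢
  obtain ⟨m, n, rfl⟩ := hl
  refine ⟨-n, m, ?_⟩
  push_cast
  linear_combination (n * c : ℂ) * Complex.I_mul_I * (-1)

variable {L : PeriodPair} (hL : CM L)

include hL in
lemma I_mul_mem_iff {z : ℂ} : I * z ∈ L.lattice ↔ z ∈ L.lattice := by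
  constructor
  · intro h
    have h1 := hL _ (hL _ (hL _ h))
    have : I * (I * (I * (I * z))) = z := by
      linear_combination (I * I * z - z) * Complex.I_mul_I
    rwa [this] at h1
  · exact hL z

/-- multiplication by `i` on the lattice -/
def mulI : L.lattice ≃ L.lattice where
  toFun l := ⟨I * l, hL _ l.2⟩
  invFun l := ⟨-(I * l), neg_mem (hL _ l.2)⟩
  left_inv l := by
    ext
    simp only
    linear_combination (-(l : ℂ)) * Complex.I_mul_I
  right_inv l := by
    ext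
    simp only
    linear_combination (-(l : ℂ)) * Complex.I_mul_I

lemma mulI_coe (l : L.lattice) : ((mulI hL l : L.lattice) : ℂ) = I * l := rfl

include hL in
lemma sigma_I_mul (z : ℂ) : sigma L (I * z) = I * sigma L z := by
  rw [sigma_eq, sigma_eq, ← (mulI hL).tprod_eq]
  simp only [mulI_coe]
  have : ∀ l : L.lattice, I * z / (I * (l : ℂ)) = z / l := fun l =>
    mul_div_mul_left _ _ Complex.I_ne_zero
  simp only [this]
  ring

include hL in
lemma zeta_I_mul (z : ℂ) : zeta L (I * z) = - I * zeta L z := by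
  rw [zeta, zeta, ← (mulI hL).tsum_eq, ← tsum_mul_left]
  congr with l
  simp only [mulI_coe]
  rw [← mul_sub, mul_pow, Complex.I_sq]
  have e1 : 1 / (I * (z - (l : ℂ))) = -I * (1 / (z - l)) := by
    rw [one_div, mul_inv, Complex.inv_I, one_div]
  have e2 : 1 / (I * (l : ℂ)) = -I * (1 / l) := by
    rw [one_div, mul_inv, Complex.inv_I, one_div]
  rw [e1, e2]
  ring

include hL in
lemma wp_I_mul (z : ℂ) : ℘[L] (I * z) = - ℘[L] z := by
  simp only [PeriodPair.weierstrassP]
  rw [← (mulI hL).tsum_eq, ← tsum_neg]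
  congr with l
  simp only [mulI_coe]
  rw [← mul_sub, mul_pow, mul_pow, Complex.I_sq]
  simp only [neg_mul, one_mul, one_div, inv_neg]
  ring

include hL in
lemma wp'_I_mul (z : ℂ) : ℘'[L] (I * z) = I * ℘'[L] z := by
  simp only [PeriodPair.derivWeierstrassP]
  rw [← (mulI hL).tsum_eq, mul_neg, ← tsum_mul_left]
  congr with l
  simp only [mulI_coe]
  rw [← mul_sub, mul_pow, show (I : ℂ) ^ 3 = -I by rw [Complex.I_pow_three]]
  rw [div_mul_eq_div_div, show (2 : ℂ) / (-I) = 2 * I by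
    rw [div_neg, div_eq_mul_inv, Complex.inv_I]; ring]
  ring

include hL in
lemma g₃_eq_zero : L.g₃ = 0 := by
  have h : L.G 6 = - L.G 6 := by
    conv_lhs => rw [PeriodPair.G, ← (mulI hL).tsum_eq]
    rw [PeriodPair.G, ← tsum_neg]
    congr with l
    simp only [mulI_coe]
    rw [mul_pow, show (I : ℂ) ^ 6 = -1 by
      rw [show (6 : ℕ) = 4 + 2 from rfl, pow_add, Complex.I_pow_four, Complex.I_sq]; ring]
    rw [neg_one_mul, inv_neg]
  have h2 : L.G 6 = 0 := by
    have : (2 : ℂ) * L.G 6 = 0 := by linear_combination h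
    simpa using this
  rw [PeriodPair.g₃, h2, mul_zero]

lemma wp'_half_eq_zero (L : PeriodPair) {w : ℂ} (hw : w ∈ L.lattice) : ℘'[L] (w / 2) = 0 := by
  have h1 := L.derivWeierstrassP_add_coe (-(w / 2)) ⟨w, hw⟩
  have h2 := L.derivWeierstrassP_neg (w / 2)
  have h3 : -(w / 2) + w = w / 2 := by ring
  simp only [h3] at h1
  rw [h2] at h1
  have : (2 : ℂ) * ℘'[L] (w / 2) = 0 := by linear_combination h1
  simpa using this

lemma half_add_half_notMem (L : PeriodPair) : L.ω₁ / 2 + L.ω₂ / 2 ∉ L.lattice := by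
  have := (L.mul_ω₁_add_mul_ω₂_mem_lattice (α := 1 / 2) (β := 1 / 2)).not.mpr (by norm_num)
  intro h
  apply this
  convert h using 1
  push_cast
  ring

lemma half_sub_half_notMem (L : PeriodPair) : L.ω₁ / 2 - L.ω₂ / 2 ∉ L.lattice := by
  have := (L.mul_ω₁_add_mul_ω₂_mem_lattice (α := 1 / 2) (β := -1 / 2)).not.mpr (by norm_num)
  intro h
  apply this
  convert h using 1
  push_cast
  ring

include hL in
lemma g₂_ne_zero : L.g₂ ≠ 0 := by
  intro h2
  have h3 := g₃_eq_zero hL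
  have a1 := L.derivWeierstrassP_sq _ L.ω₁_div_two_notMem_lattice
  have a2 := L.derivWeierstrassP_sq _ L.ω₂_div_two_notMem_lattice
  rw [wp'_half_eq_zero L L.ω₁_mem_lattice, h2, h3] at a1
  rw [wp'_half_eq_zero L L.ω₂_mem_lattice, h2, h3] at a2
  have b1 : ℘[L] (L.ω₁ / 2) = 0 := by
    have : ℘[L] (L.ω₁ / 2) ^ 3 = 0 := by linear_combination (-1/4) * a1
    exact pow_eq_zero_iff (by norm_num) |>.mp this
  have b2 : ℘[L] (L.ω₂ / 2) = 0 := by
    have : ℘[L] (L.ω₂ / 2) ^ 3 = 0 := by linear_combination (-1/4) * a2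
    exact pow_eq_zero_iff (by norm_num) |>.mp this
  have h := (wp_eq_iff L L.ω₁_div_two_notMem_lattice L.ω₂_div_two_notMem_lattice).mp
    (by rw [b1, b2])
  rcases h with h | h
  · exact half_add_half_notMem L h
  · exact half_sub_half_notMem L h

/-- scaling equivalence -/
def scaleEquiv {c : ℂ} (hc : c ≠ 0) : (sq 1 one_ne_zero).lattice ≃ (sq c hc).lattice where
  toFun l := ⟨c * l, by
    have := l.2
    rw [mem_sq] at this ⊢
    obtain ⟨m, n, h⟩ := this
    exact ⟨m, n, by rw [← h]; ring⟩⟩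
  invFun l := ⟨c⁻¹ * l, by
    have := l.2
    rw [mem_sq] at this ⊢
    obtain ⟨m, n, h⟩ := this
    exact ⟨m, n, by rw [← h]; field_simp⟩⟩
  left_inv l := by ext; simp [hc]
  right_inv l := by ext; simp [hc]

lemma g₂_sq {c : ℂ} (hc : c ≠ 0) : (sq c hc).g₂ = (sq 1 one_ne_zero).g₂ / c ^ 4 := by
  rw [PeriodPair.g₂, PeriodPair.g₂, PeriodPair.G, PeriodPair.G, ← (scaleEquiv hc).tsum_eq]
  have : ∀ l : (sq 1 one_ne_zero).lattice, (((scaleEquiv hc l : (sq c hc).lattice) : ℂ) ^ 4)⁻¹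
      = (c ^ 4)⁻¹ * ((l : ℂ) ^ 4)⁻¹ := by
    intro l
    have : ((scaleEquiv hc l : (sq c hc).lattice) : ℂ) = c * l := rfl
    rw [this, mul_pow, mul_inv]
  simp only [this]
  rw [tsum_mul_left]
  field_simp

lemma exists_sq_g₂ (g : ℂ) (hg : g ≠ 0) : ∃ (c : ℂ) (hc : c ≠ 0), (sq c hc).g₂ = g := by
  have h0 : (sq 1 one_ne_zero).g₂ ≠ 0 := g₂_ne_zero CM_sq
  obtain ⟨c, hc⟩ := IsAlgClosed.exists_pow_nat_eq ((sq 1 one_ne_zero).g₂ / g) (n := 4) (by norm_num)
  have hc0 : c ≠ 0 := by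
    rintro rfl
    have : (sq 1 one_ne_zero).g₂ / g ≠ 0 := div_ne_zero h0 hg
    apply this; rw [← hc]; norm_num
  refine ⟨c, hc0, ?_⟩
  rw [g₂_sq hc0, hc]
  field_simp

/-- surjectivity of `℘` -/
lemma exists_wp_eq (L : PeriodPair) (v : ℂ) : ∃ z, z ∉ L.lattice ∧ ℘[L] z = v := by
  by_contra hcon
  push Not at hcon
  have hne : ∀ z, z ∉ L.lattice → ℘[L] z - v ≠ 0 := fun z hz => sub_ne_zero.mpr (hcon z hz)
  have hG := eq_of_periodic L (fun z => (℘[L] z - v)⁻¹) ?_ ?_
    (fun z => z ^ 2 / (1 + z ^ 2 * (℘[L - (0 : ℂ)] z - v))) ?_ ?_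
  · -- then ℘ is constant
    have h4 : (2 : ℂ) * (L.ω₁ / 4) ∉ L.lattice := by
      have := L.ω₁_div_two_notMem_lattice
      rwa [show (2 : ℂ) * (L.ω₁ / 4) = L.ω₁ / 2 by ring]
    have h4' := two_mul_notMem_of L h4
    have hconst : ∀ z, z ∉ L.lattice → ℘[L] z = ℘[L] (L.ω₁ / 4) := by
      intro z hz
      have := hG z _ hz h4'
      have h5 := inv_injective this
      linear_combination h5
    have hd := (hasDerivAt_weierstrassP L h4')
    have hd2 : HasDerivAt ℘[L] 0 (L.ω₁ / 4) := by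
      refine (hasDerivAt_const (L.ω₁ / 4) (℘[L] (L.ω₁ / 4))).congr_of_eventuallyEq ?_
      filter_upwards [(isOpen_compl L).mem_nhds h4'] with x hx
      exact hconst x hx
    exact wp'_ne_zero L h4 (hd.unique hd2)
  · intro z hz
    exact ((hasDerivAt_weierstrassP L hz).differentiableAt.sub_const v).inv (hne z hz)
  · intro z hz l hl
    have := L.weierstrassP_add_coe z ⟨l, hl⟩
    rw [this]
  · refine DifferentiableAt.div (by fun_prop) ?_ (by simp)
    have := (L.analyticAt_weierstrassPExcept 0).differentiableAt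
    fun_prop
  · have h1 : ∀ᶠ z in 𝓝[≠] (0 : ℂ), z ∉ L.lattice := by
      filter_upwards [self_mem_nhdsWithin, mem_nhdsWithin_of_mem_nhds
        (L.compl_lattice_sdiff_singleton_mem_nhds 0)] with w hw hw'
      simp_all
    filter_upwards [h1, self_mem_nhdsWithin] with z hz hz0
    have hz0' : z ≠ 0 := hz0
    have e2 : ℘[L] z = ℘[L - (0 : ℂ)] z + 1 / z ^ 2 := by
      have := L.weierstrassPExcept_add (0 : L.lattice) z
      simp at this
      rw [← this]; simp
    have h3 := hne z hz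
    rw [e2] at h3 ⊢
    have h4 : ℘[L - (0 : ℂ)] z + 1 / z ^ 2 - v = (1 + z ^ 2 * (℘[L - (0 : ℂ)] z - v)) / z ^ 2 := by
      field_simp
      ring
    rw [h4, inv_div]

end H667R3
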