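import Pool.Agent.H86.CMLib.H667R3.W6

open Module Filter
open scoped Topology Nat PeriodPair

noncomputable section

namespace H667R3

open Complex (I)

variable {c : ℂ} {hc : c ≠ 0}

lemma eta_I_mul {L : PeriodPair} (hL : CM L) {l : ℂ} (hl : l ∈ L.lattice) :
    eta L (I * l) = - I * eta L l := by
  have h0 := L.ω₁_div_two_notMem_lattice
  have h1 : I * (L.ω₁ / 2) ∉ L.lattice := fun h => h0 ((I_mul_mem_iff hL).mp h)
  have e1 := zeta_add_coe L h1 (hL _ hl)
  have e2 := zeta_add_coe L h0 hl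
  rw [← mul_add, zeta_I_mul hL, zeta_I_mul hL, e2] at e1
  linear_combination -e1

/-- in the closed square of side 1, the only lattice point is zero -/
lemma sq_notMem {u : ℂ} (hu : u ≠ 0) (h1 : |u.re| ≤ 1 / 2) (h2 : |u.im| ≤ 1 / 2) :
    c * u ∉ (sq c hc).lattice := by
  rw [mem_sq]
  rintro ⟨m, n, h⟩
  have h3 : (m : ℂ) + n * I = u := by
    have : ((m : ℂ) + n * I - u) * c = 0 := by linear_combination h
    rcases mul_eq_zero.mp this with h | h
    · exact sub_eq_zero.mp h
    · exact absurd h hc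
  have hre : (m : ℝ) = u.re := by rw [← h3]; simp
  have him : (n : ℝ) = u.im := by rw [← h3]; simp
  rw [← hre] at h1
  rw [← him] at h2
  have hm : m = 0 := by
    have h5 : |(m : ℝ)| < 1 := by linarith
    rw [← Int.cast_abs] at h5
    have h6 : |m| < 1 := by exact_mod_cast h5
    exact Int.abs_lt_one_iff.mp h6
  have hn : n = 0 := by
    have h5 : |(n : ℝ)| < 1 := by linarith
    rw [← Int.cast_abs] at h5
    have h6 : |n| < 1 := by exact_mod_cast h5
    exact Int.abs_lt_one_iff.mp h6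
  apply hu
  rw [← h3, hm, hn]; simp

lemma Pi'_ne_zero {L : PeriodPair} {z : ℂ} (hz : z ∉ L.lattice) : Pi' L z ≠ 0 := prodE2_ne_zero L hz

/-- the regularized function `ζ(z) - 1/z` -/
def zreg (L : PeriodPair) (z : ℂ) : ℂ := deriv (Pi' L) z / Pi' L z

lemma zreg_eq {L : PeriodPair} {z : ℂ} (hz : z ∉ L.lattice) : zreg L z = zeta L z - 1 / z := by
  have hz0 : z ≠ 0 := by rintro rfl; exact hz (zero_mem _)
  have h1 := logDeriv_sigma L hz
  have h2 : sigma L = fun z => z * Pi' L z := rfl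
  rw [h2, logDeriv_mul (f := fun z => z) z hz0 (Pi'_ne_zero hz) differentiableAt_id
        ((differentiable_Pi' L) z)] at h1
  have h3 : logDeriv (fun z : ℂ => z) z = 1 / z := by simp [logDeriv]
  rw [h3, logDeriv_apply] at h1
  rw [zreg, ← h1]; ring

lemma differentiableAt_zreg {L : PeriodPair} {z : ℂ} (hz : Pi' L z ≠ 0) :
    DifferentiableAt ℂ (zreg L) z := by
  have h1 : Differentiable ℂ (deriv (Pi' L)) := by
    have := (differentiable_Pi' L).contDiff (n := 2)
    exact (this.iterate_deriv' 1 1).differentiable (by simp)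
  exact (h1 z).div (differentiable_Pi' L z) hz

lemma integral_inv_sq_add : ∫ x : ℝ in (-1 / 2 : ℝ)..(1 / 2), ((1 : ℂ) / ((x : ℂ) ^ 2 + 1 / 4))
    = (Real.pi : ℂ) := by
  have h1 : ∫ x : ℝ in (-1 / 2 : ℝ)..(1 / 2), (1 / (x ^ 2 + 1 / 4)) = Real.pi := by
    have h2 : ∀ x : ℝ, HasDerivAt (fun x => 2 * Real.arctan (2 * x)) (1 / (x ^ 2 + 1 / 4)) x := by
      intro x
      have h3 : HasDerivAt (fun x : ℝ => 2 * x) 2 x := by
        simpa using (hasDerivAt_id x).const_mul 2
      have h4 := (h3.arctan).const_mul 2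
      refine h4.congr_deriv ?_
      have : x ^ 2 + 1 / 4 ≠ 0 := by positivity
      have : 1 + (2 * x) ^ 2 ≠ 0 := by positivity
      field_simp
      ring
    rw [intervalIntegral.integral_eq_sub_of_hasDerivAt (fun x _ => h2 x)]
    · norm_num
      ring
    · apply Continuous.intervalIntegrable
      refine Continuous.div continuous_const (by fun_prop) ?_
      intro x; positivity
  have h2 := intervalIntegral.integral_ofReal (a := -1/2) (b := 1/2) (μ := MeasureTheory.volume)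
    (f := fun x : ℝ => 1 / (x ^ 2 + 1 / 4)) 
  rw [h1] at h2
  refine Eq.trans ?_ h2
  congr 1
  ext x
  push_cast
  ring

/-- Legendre relation for the square lattice `c ℤ[i]`: `c η(c) = π`. -/
lemma legendre_sq : c * eta (sq c hc) c = Real.pi := by
  set L := sq c hc with hLdef
  have hCM : CM L := CM_sq
  set f : ℂ → ℂ := fun u => c * zreg L (c * u) with hf
  have hbox : ∀ u : ℂ, |u.re| ≤ 1 / 2 → |u.im| ≤ 1 / 2 → Pi' L (c * u) ≠ 0 := by
    intro u h1 h2
    by_cases hu : u = 0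
    · rw [hu, mul_zero, Pi'_zero]; exact one_ne_zero
    · exact Pi'_ne_zero (sq_notMem hu h1 h2)
  have hfd : ∀ u : ℂ, |u.re| ≤ 1 / 2 → |u.im| ≤ 1 / 2 → DifferentiableAt ℂ f u := by
    intro u h1 h2
    have h3 : HasDerivAt (fun u : ℂ => c * u) c u := by
      simpa using (hasDerivAt_id u).const_mul c
    exact ((differentiableAt_zreg (hbox u h1 h2)).comp u h3.differentiableAt).const_mul c
  have hfe : ∀ u : ℂ, u ≠ 0 → |u.re| ≤ 1 / 2 → |u.im| ≤ 1 / 2 →
      f u = c * zeta L (c * u) - 1 / u := by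
    intro u hu h1 h2
    have h3 : c * u ∉ L.lattice := sq_notMem hu h1 h2
    simp only [hf]
    rw [zreg_eq h3]
    field_simp
  have hint := Complex.integral_boundary_rect_eq_zero_of_differentiableOn f
    ⟨-1 / 2, -1 / 2⟩ ⟨1 / 2, 1 / 2⟩ ?_
  · simp only [smul_eq_mul] at hint
    have hside : ∀ (γ : ℝ → ℂ), Continuous γ → (∀ x ∈ Set.Icc (-1 / 2 : ℝ) (1 / 2),
        |(γ x).re| ≤ 1 / 2 ∧ |(γ x).im| ≤ 1 / 2) →
        IntervalIntegrable (fun x : ℝ => f (γ x)) MeasureTheory.volume (-1/2) (1/2) := by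
      intro γ hγ hb
      apply ContinuousOn.intervalIntegrable
      intro x hx
      rw [Set.uIcc_of_le (by norm_num)] at hx
      have h1 : DifferentiableAt ℂ f (γ x) := hfd _ (hb x hx).1 (hb x hx).2
      exact (ContinuousAt.comp (f := γ) h1.continuousAt hγ.continuousAt).continuousWithinAt
    have c1 := hside (fun x => (x : ℂ) + ((-1 / 2 : ℝ) : ℂ) * I) (by fun_prop) (by
      intro x hx
      constructor
      · simp; rw [abs_le]; constructor <;> linarith [hx.1, hx.2]
      · simp <;> norm_num [abs_of_pos, abs_of_neg])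
    have c2 := hside (fun x => (x : ℂ) + ((1 / 2 : ℝ) : ℂ) * I) (by fun_prop) (by
      intro x hx
      constructor
      · simp; rw [abs_le]; constructor <;> linarith [hx.1, hx.2]
      · simp <;> norm_num [abs_of_pos, abs_of_neg])
    have c3 := hside (fun y => ((1 / 2 : ℝ) : ℂ) + (y : ℂ) * I) (by fun_prop) (by
      intro x hx
      constructor
      · simp <;> norm_num [abs_of_pos, abs_of_neg]
      · simp; rw [abs_le]; constructor <;> linarith [hx.1, hx.2])
    have c4 := hside (fun y => ((-1 / 2 : ℝ) : ℂ) + (y : ℂ) * I) (by fun_prop) (by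
      intro x hx
      constructor
      · simp <;> norm_num [abs_of_pos, abs_of_neg]
      · simp; rw [abs_le]; constructor <;> linarith [hx.1, hx.2])
    rw [← intervalIntegral.integral_sub c1 c2, add_sub_assoc, ← mul_sub,
      ← intervalIntegral.integral_sub c3 c4] at hint
    have hηI : eta L (I * c) = - I * eta L c := eta_I_mul hCM L.ω₁_mem_lattice
    have e1 : ∫ x : ℝ in (-1 / 2 : ℝ)..(1 / 2),
        (f ((x : ℂ) + ((-1 / 2 : ℝ) : ℂ) * I) - f ((x : ℂ) + ((1 / 2 : ℝ) : ℂ) * I))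
        = ∫ x : ℝ in (-1 / 2 : ℝ)..(1 / 2), (I * (c * eta L c) - I * (1 / ((x : ℂ) ^ 2 + 1 / 4))) := by
      apply intervalIntegral.integral_congr
      intro x hx
      rw [Set.uIcc_of_le (by norm_num)] at hx
      have hx1 : |x| ≤ 1 / 2 := by rw [abs_le]; constructor <;> linarith [hx.1, hx.2]
      have hn1 : (x : ℂ) + ((-1 / 2 : ℝ) : ℂ) * I ≠ 0 := by
        intro h; have := congrArg Complex.im h; norm_num at this
      have hn2 : (x : ℂ) + ((1 / 2 : ℝ) : ℂ) * I ≠ 0 := by
        intro h; have := congrArg Complex.im h; norm_num at this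
      have b1 : |((x : ℂ) + ((-1 / 2 : ℝ) : ℂ) * I).re| ≤ 1 / 2 := by simpa using hx1
      have b2 : |((x : ℂ) + ((-1 / 2 : ℝ) : ℂ) * I).im| ≤ 1 / 2 := by
        simp <;> norm_num [abs_of_pos, abs_of_neg]
      have b3 : |((x : ℂ) + ((1 / 2 : ℝ) : ℂ) * I).re| ≤ 1 / 2 := by simpa using hx1
      have b4 : |((x : ℂ) + ((1 / 2 : ℝ) : ℂ) * I).im| ≤ 1 / 2 := by
        simp <;> norm_num [abs_of_pos, abs_of_neg]
      simp only
      rw [hfe _ hn1 b1 b2, hfe _ hn2 b3 b4]
      have hper : zeta L (c * ((x : ℂ) + ((1 / 2 : ℝ) : ℂ) * I))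
          = zeta L (c * ((x : ℂ) + ((-1 / 2 : ℝ) : ℂ) * I)) + eta L (I * c) := by
        have h4 := zeta_add_coe L (sq_notMem (hc := hc) hn1 b1 b2) (L.ω₂_mem_lattice)
        have h5 : c * ((x : ℂ) + ((-1 / 2 : ℝ) : ℂ) * I) + L.ω₂
            = c * ((x : ℂ) + ((1 / 2 : ℝ) : ℂ) * I) := by
          rw [hLdef, sq_ω₂]; push_cast; ring
        rw [h5] at h4
        exact h4
      rw [hper, hηI]
      have h6 : (x : ℂ) ^ 2 + 1 / 4 ≠ 0 := by
        have : (x : ℂ) ^ 2 + 1 / 4 = ((x ^ 2 + 1 / 4 : ℝ) : ℂ) := by push_cast; ring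
        rw [this]; norm_cast; positivity
      have h7 : 1 / ((x : ℂ) + ((-1 / 2 : ℝ) : ℂ) * I) - 1 / ((x : ℂ) + ((1 / 2 : ℝ) : ℂ) * I)
          = I * (1 / ((x : ℂ) ^ 2 + 1 / 4)) := by
        rw [div_sub_div _ _ hn1 hn2, mul_one_div, div_eq_div_iff (mul_ne_zero hn1 hn2) h6]
        push_cast
        linear_combination ((1/4) * I) * Complex.I_mul_I
      linear_combination -h7
    have e2 : ∫ x : ℝ in (-1 / 2 : ℝ)..(1 / 2),
        (f (((1 / 2 : ℝ) : ℂ) + (x : ℂ) * I) - f (((-1 / 2 : ℝ) : ℂ) + (x : ℂ) * I))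
        = ∫ x : ℝ in (-1 / 2 : ℝ)..(1 / 2), ((c * eta L c) - (1 / ((x : ℂ) ^ 2 + 1 / 4))) := by
      apply intervalIntegral.integral_congr
      intro x hx
      rw [Set.uIcc_of_le (by norm_num)] at hx
      have hx1 : |x| ≤ 1 / 2 := by rw [abs_le]; constructor <;> linarith [hx.1, hx.2]
      have hn1 : ((1 / 2 : ℝ) : ℂ) + (x : ℂ) * I ≠ 0 := by
        intro h; have := congrArg Complex.re h; norm_num at this
      have hn2 : ((-1 / 2 : ℝ) : ℂ) + (x : ℂ) * I ≠ 0 := by
        intro h; have := congrArg Complex.re h; norm_num at this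
      have b1 : |(((1 / 2 : ℝ) : ℂ) + (x : ℂ) * I).re| ≤ 1 / 2 := by
        simp <;> norm_num [abs_of_pos, abs_of_neg]
      have b2 : |(((1 / 2 : ℝ) : ℂ) + (x : ℂ) * I).im| ≤ 1 / 2 := by simpa using hx1
      have b3 : |(((-1 / 2 : ℝ) : ℂ) + (x : ℂ) * I).re| ≤ 1 / 2 := by
        simp <;> norm_num [abs_of_pos, abs_of_neg]
      have b4 : |(((-1 / 2 : ℝ) : ℂ) + (x : ℂ) * I).im| ≤ 1 / 2 := by simpa using hx1
      simp only
      rw [hfe _ hn1 b1 b2, hfe _ hn2 b3 b4]
      have hper : zeta L (c * (((1 / 2 : ℝ) : ℂ) + (x : ℂ) * I))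
          = zeta L (c * (((-1 / 2 : ℝ) : ℂ) + (x : ℂ) * I)) + eta L c := by
        have h4 := zeta_add_coe L (sq_notMem (hc := hc) hn2 b3 b4) (L.ω₁_mem_lattice)
        have h5 : c * (((-1 / 2 : ℝ) : ℂ) + (x : ℂ) * I) + L.ω₁
            = c * (((1 / 2 : ℝ) : ℂ) + (x : ℂ) * I) := by
          rw [hLdef, sq_ω₁]; push_cast; ring
        rw [h5] at h4
        exact h4
      rw [hper]
      have h6 : (x : ℂ) ^ 2 + 1 / 4 ≠ 0 := by
        have : (x : ℂ) ^ 2 + 1 / 4 = ((x ^ 2 + 1 / 4 : ℝ) : ℂ) := by push_cast; ring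
        rw [this]; norm_cast; positivity
      have h7 : 1 / (((1 / 2 : ℝ) : ℂ) + (x : ℂ) * I) - 1 / (((-1 / 2 : ℝ) : ℂ) + (x : ℂ) * I)
          = (1 / ((x : ℂ) ^ 2 + 1 / 4)) := by
        rw [div_sub_div _ _ hn1 hn2, div_eq_div_iff (mul_ne_zero hn1 hn2) h6]
        push_cast
        linear_combination (-(x : ℂ) ^ 2) * Complex.I_mul_I
      linear_combination -h7
    rw [e1, e2] at hint
    have ic : Continuous (fun x : ℝ => (1 : ℂ) / ((x : ℂ) ^ 2 + 1 / 4)) := by
      refine Continuous.div continuous_const (by fun_prop) ?_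
      intro x
      have : (x : ℂ) ^ 2 + 1 / 4 = ((x ^ 2 + 1 / 4 : ℝ) : ℂ) := by push_cast; ring
      rw [this]; norm_cast; positivity
    have ic2 : Continuous (fun x : ℝ => I * ((1 : ℂ) / ((x : ℂ) ^ 2 + 1 / 4))) :=
      continuous_const.mul ic
    have e3 : ∫ x : ℝ in (-1 / 2 : ℝ)..(1 / 2), (I * (c * eta L c) - I * (1 / ((x : ℂ) ^ 2 + 1 / 4)))
        = I * (c * eta L c) - I * Real.pi := by
      rw [intervalIntegral.integral_sub intervalIntegrable_const (ic2.intervalIntegrable _ _),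
        intervalIntegral.integral_const, intervalIntegral.integral_const_mul, integral_inv_sq_add]
      norm_num
    have e4 : ∫ x : ℝ in (-1 / 2 : ℝ)..(1 / 2), ((c * eta L c) - (1 / ((x : ℂ) ^ 2 + 1 / 4)))
        = (c * eta L c) - Real.pi := by
      rw [intervalIntegral.integral_sub intervalIntegrable_const (ic.intervalIntegrable _ _),
        integral_inv_sq_add, intervalIntegral.integral_const]
      norm_num
    rw [e3, e4] at hint
    have h8 : (2 * I) * (c * eta L c - Real.pi) = 0 := by linear_combination hint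
    rcases mul_eq_zero.mp h8 with h | h
    · simp at h
    · exact sub_eq_zero.mp h
  · intro u hu
    rw [Complex.mem_reProdIm] at hu
    simp only at hu
    rw [Set.uIcc_of_le (by norm_num)] at hu
    refine (hfd u ?_ ?_).differentiableWithinAt
    · rw [abs_le]; constructor <;> linarith [hu.1.1, hu.1.2]
    · rw [abs_le]; constructor <;> linarith [hu.2.1, hu.2.2]

end H667R3
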